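import Pool.Agent.Helper1.KL.General

set_option autoImplicit false

/-!
Project KL (MP_0b9e0b_ag), KL-1, second part: good points, restriction of a point to its field.
-/

namespace Pool.Agent.Helper1.KL

open Pool.Agent.Helper16

variable {k : Type} [Field k] {p : ℕ} {n : ℕ} {b : Fin n → k} {r : ℕ}

theorem cl_eq_of_key {N N' : Type} [Field N] [Field N'] [Algebra (RatFunc k) N]
    [Algebra (RatFunc k) N'] {z : Fin n ⊕ Fin n → Option N} {z' : Fin n ⊕ Fin n → Option N'}
    (h : key (RatFunc k) z = key (RatFunc k) z') : cl p b r z = cl p b r z' := by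
  unfold cl cls
  rw [h]

section map

variable {N N' : Type} [Field N] [Field N'] [Algebra (RatFunc k) N] [Algebra (RatFunc k) N']

theorem map_cast [Fact p.Prime] [CharP k p] (φ : N →ₐ[RatFunc k] N') (c : ZMod p) :
    φ (c.cast : N) = (c.cast : N') := by
  have := charP_alg (k := k) (p := p) N
  have := charP_alg (k := k) (p := p) N'
  have h1 : (c.cast : N) = ZMod.castHom (dvd_refl p) N c := rfl
  have h2 : (c.cast : N') = ZMod.castHom (dvd_refl p) N' c := rfl
  rw [h1, h2]
  exact RingHom.congr_fun (RingHom.ext_zmod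
    ((φ : N →+* N').comp (ZMod.castHom (dvd_refl p) N)) (ZMod.castHom (dvd_refl p) N')) c

theorem tr_map [Fact p.Prime] [CharP k p] (φ : N →ₐ[RatFunc k] N') (h : Fin n → ZMod p)
    (z : Fin n ⊕ Fin n → Option N) :
    tr h (fun j => (z j).map φ) = fun j => (tr h z j).map φ := by
  funext j
  rcases j with i | i
  · rfl
  · change Option.map _ (Option.map _ _) = Option.map _ (Option.map _ _)
    rw [Option.map_map, Option.map_map]
    congr 1
    funext c
    simp only [Function.comp_apply, map_add, map_cast φ]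

theorem SH_map [Fact p.Prime] [CharP k p] (φ : N →ₐ[RatFunc k] N') (H : Finset (Fin n → ZMod p))
    (z : Fin n ⊕ Fin n → Option N) :
    SH p b r H (fun j => (z j).map φ) = SH p b r H z := by
  unfold SH
  refine Finset.sum_congr rfl fun h _ => ?_
  rw [tr_map]
  exact cl_eq_of_key (key_map φ _)

theorem SH_restr [Fact p.Prime] [CharP k p] (H : Finset (Fin n → ZMod p))
    (z : Fin n ⊕ Fin n → Option N) :
    SH p b r H (restr (RatFunc k) z) = SH p b r H z := by
  rw [← SH_map (fld (RatFunc k) z).val H (restr (RatFunc k) z), restr_map]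

theorem xc_map (φ : N →ₐ[RatFunc k] N') (z : Fin n ⊕ Fin n → Option N) (i : Fin n) :
    xc (fun j => (z j).map φ) i = φ (xc z i) := getD_map φ _

theorem yc_map (φ : N →ₐ[RatFunc k] N') (z : Fin n ⊕ Fin n → Option N) (i : Fin n) :
    yc (fun j => (z j).map φ) i = φ (yc z i) := getD_map φ _

theorem ec_map [Fact p.Prime] [CharP k p] (φ : N →ₐ[RatFunc k] N') (ρ : Fin n → ZMod p)
    (z : Fin n ⊕ Fin n → Option N) : ec ρ (fun j => (z j).map φ) = φ (ec ρ z) := by
  unfold ec
  rw [map_sum]
  exact Finset.sum_congr rfl fun i _ => by rw [yc_map, map_mul, map_cast φ]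

theorem Xc_map [Fact p.Prime] [CharP k p] (φ : N →ₐ[RatFunc k] N') (ρ : Fin n → ZMod p)
    (z : Fin n ⊕ Fin n → Option N) : Xc ρ (fun j => (z j).map φ) = φ (Xc ρ z) := by
  unfold Xc
  rw [map_sum]
  exact Finset.sum_congr rfl fun i _ => by rw [xc_map, map_mul, map_cast φ]

theorem Bc_map [Fact p.Prime] [CharP k p] (φ : N →ₐ[RatFunc k] N') (ρ : Fin n → ZMod p)
    (z : Fin n ⊕ Fin n → Option N) : Bc b ρ (fun j => (z j).map φ) = φ (Bc b ρ z) := by
  unfold Bc
  rw [map_sum]
  exact Finset.sum_congr rfl fun i _ => by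
    rw [xc_map, map_mul, map_mul, map_cast φ, map_inv₀, AlgHom.commutes]

theorem red_map [Fact p.Prime] [CharP k p] (φ : N →ₐ[RatFunc k] N') (ρ : Fin n → ZMod p)
    (z : Fin n ⊕ Fin n → Option N) :
    red ρ (fun j => (z j).map φ) = fun j => (red ρ z j).map φ := by
  funext j
  rcases j with i | i
  · rfl
  · change some (ec ρ _) = Option.map φ (some (ec ρ z))
    rw [ec_map, Option.map_some]

/-- A point and its reduced point under a homomorphism. -/
theorem key_red_map [Fact p.Prime] [CharP k p] (φ : N →ₐ[RatFunc k] N') (ρ : Fin n → ZMod p)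
    (z : Fin n ⊕ Fin n → Option N) :
    key (RatFunc k) (red ρ (fun j => (z j).map φ)) = key (RatFunc k) (red ρ z) := by
  rw [red_map]
  exact key_map φ _

theorem key_red_restr [Fact p.Prime] [CharP k p] (ρ : Fin n → ZMod p)
    (z : Fin n ⊕ Fin n → Option N) :
    key (RatFunc k) (red ρ (restr (RatFunc k) z)) = key (RatFunc k) (red ρ z) := by
  rw [← key_red_map (fld (RatFunc k) z).val ρ (restr (RatFunc k) z), restr_map]

theorem Good.map {I : Finset (Fin n)} {z : Fin n ⊕ Fin n → Option N} (h : Good p b r I z)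
    (φ : N →ₐ[RatFunc k] N') : Good p b r I (fun j => (z j).map φ) where
  mem := (XV_map φ z).2 h.mem
  aff := fun i hi h0 => h.aff i hi (by simpa using h0)
  inf := fun i hi => by rw [h.inf i hi]; rfl
  dim := by rw [trdeg_fld_map]; exact h.dim

theorem Good.restr {I : Finset (Fin n)} {z : Fin n ⊕ Fin n → Option N} (h : Good p b r I z) :
    Good p b r I (restr (RatFunc k) z) where
  mem := XV_restr h.mem
  aff := fun i hi h0 => h.aff i hi (by
    have := congrFun (restr_map (F := RatFunc k) z) (Sum.inr i)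
    rw [← this, h0]; rfl)
  inf := fun i hi => by
    have := congrFun (restr_map (F := RatFunc k) z) (Sum.inl i)
    rw [h.inf i hi] at this
    exact Option.map_eq_none_iff.1 this
  dim := by rw [trdeg_fld_restr]; exact h.dim

theorem Good.trdeg_fld {I : Finset (Fin n)} {z : Fin n ⊕ Fin n → Option N} (h : Good p b r I z) :
    Algebra.trdeg (RatFunc k) (fld (RatFunc k) z) = r := h.dim

end map

section good

variable {N : Type} [Field N] [Algebra (RatFunc k) N] {I : Finset (Fin n)}
  {z : Fin n ⊕ Fin n → Option N}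

theorem Good.of_mem (h : Good p b r I z) (hb : ∀ i, b i ≠ 0) {i : Fin n} (hi : i ∈ I) :
    z (Sum.inl i) = some (xc z i) ∧ z (Sum.inr i) = some (yc z i) ∧ xc z i ≠ 0 ∧
      yc z i ^ p - yc z i = algebraMap (RatFunc k) N RatFunc.X * xc z i +
        algebraMap (RatFunc k) N (RatFunc.C (b i)) * (xc z i)⁻¹ := by
  rcases h.mem.cases hb i with ⟨h1, -, -⟩ | h1
  · exact (h.aff i hi h1).elim
  · exact h1

theorem Good.of_notMem (h : Good p b r I z) (hb : ∀ i, b i ≠ 0) {i : Fin n} (hi : i ∉ I) :
    z (Sum.inl i) = none ∧ z (Sum.inr i) = none ∧ xc z i = 0 ∧ yc z i = 0 := by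
  rcases h.mem.cases hb i with ⟨h1, h2, h3⟩ | ⟨h1, -⟩
  · exact ⟨h.inf i hi, h1, h2, h3⟩
  · rw [h.inf i hi] at h1
    cases h1

theorem Good.aff_eq (h : Good p b r I z) (hb : ∀ i, b i ≠ 0) : KL.aff z = I := by
  classical
  ext i
  unfold KL.aff
  rw [Finset.mem_filter_univ]
  constructor
  · intro h1
    by_contra hi
    exact h1 (h.of_notMem hb hi).2.1
  · exact h.aff i

/-- If a point of `X` is not good for `I` although it looks like it then it has less affine
coordinates. -/
theorem cl_mem_GG {N : Type} [Field N] [Algebra (RatFunc k) N] {z : Fin n ⊕ Fin n → Option N}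
    (hz : XV p b N z) (hr : Algebra.trdeg (RatFunc k) (fld (RatFunc k) z) = r) {m : ℕ}
    (hm : (KL.aff z).card < m) : cl p b r z ∈ GG p b r m :=
  Submodule.subset_span ⟨N, inferInstance, inferInstance, z, hz, hr, hm, rfl⟩

end good

section alg

variable {N : Type} [Field N] [Algebra (RatFunc k) N] {z : Fin n ⊕ Fin n → Option N}

/-- The coordinates `y i` are integral over the field of the `x i`. -/
theorem isIntegral_yc [Fact p.Prime] (hz : XV p b N z) (hb : ∀ i, b i ≠ 0)
    (E : IntermediateField (RatFunc k) N) (i : Fin n) (hi : xc z i ∈ E) :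
    IsIntegral E (yc z i) := by
  have hp := (Fact.out : p.Prime)
  rcases hz.cases hb i with ⟨-, -, h3⟩ | ⟨-, -, -, h⟩
  · rw [h3]
    exact isIntegral_zero
  · set c : E := algebraMap (RatFunc k) E RatFunc.X * ⟨xc z i, hi⟩ +
      algebraMap (RatFunc k) E (RatFunc.C (b i)) * (⟨xc z i, hi⟩)⁻¹ with hc
    refine ⟨Polynomial.X ^ p - Polynomial.X - Polynomial.C c, ?_, ?_⟩
    · have h1 : (Polynomial.X ^ p - Polynomial.X - Polynomial.C c : Polynomial E) =
          Polynomial.X ^ p - (Polynomial.X + Polynomial.C c) := by ring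
      rw [h1]
      refine Polynomial.monic_X_pow_sub ?_
      rw [Polynomial.degree_X_add_C]
      exact_mod_cast hp.one_lt
    · have h2 : algebraMap E N c = algebraMap (RatFunc k) N RatFunc.X * xc z i +
          algebraMap (RatFunc k) N (RatFunc.C (b i)) * (xc z i)⁻¹ := rfl
      simp only [Polynomial.eval₂_sub, Polynomial.eval₂_pow, Polynomial.eval₂_X,
        Polynomial.eval₂_C, h2]
      rw [h, sub_self]

/-- The field of a point of `X` is algebraic over the field generated by the `x i`. -/
theorem fld_isAlgebraic [Fact p.Prime] (hz : XV p b N z) (hb : ∀ i, b i ≠ 0)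
    (E : IntermediateField (RatFunc k) N) (hE : ∀ i, xc z i ∈ E) (a : N)
    (ha : a ∈ fld (RatFunc k) z) : IsAlgebraic E a := by
  have h1 : fld (RatFunc k) z ≤ (algebraicClosure E N).restrictScalars (RatFunc k) := by
    rw [fld_eq_range, IntermediateField.adjoin_le_iff]
    rintro _ ⟨j, rfl⟩
    rcases j with i | i
    · change xc z i ∈ algebraicClosure E N
      exact (algebraicClosure E N).algebraMap_mem ⟨xc z i, hE i⟩
    · change yc z i ∈ algebraicClosure E N
      rw [mem_algebraicClosure_iff']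
      exact isIntegral_yc hz hb E i (hE i)
  exact mem_algebraicClosure_iff.1 (h1 ha)

theorem fld_xpt_le (z : Fin n ⊕ Fin n → Option N) :
    fld (RatFunc k) (xpt z) ≤ fld (RatFunc k) z := by
  rw [fld_eq_range (xpt z), IntermediateField.adjoin_le_iff]
  rintro _ ⟨i, rfl⟩
  exact getD_mem_fld z (Sum.inl i)

theorem xc_mem (z : Fin n ⊕ Fin n → Option N) (i : Fin n) : xc z i ∈ fld (RatFunc k) (xpt z) :=
  getD_mem_fld (xpt z) i

/-- The dimension of a point is the transcendence degree of the field of the `x i`. -/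
theorem trdeg_xpt [Fact p.Prime] (hz : XV p b N z) (hb : ∀ i, b i ≠ 0) :
    Algebra.trdeg (RatFunc k) (fld (RatFunc k) (xpt z)) =
      Algebra.trdeg (RatFunc k) (fld (RatFunc k) z) := by
  have hle := fld_xpt_le (k := k) z
  letI : Algebra (fld (RatFunc k) (xpt z)) (fld (RatFunc k) z) :=
    (IntermediateField.inclusion hle).toAlgebra
  have hst : IsScalarTower (RatFunc k) (fld (RatFunc k) (xpt z)) (fld (RatFunc k) z) :=
    IsScalarTower.of_algebraMap_eq fun a => ((IntermediateField.inclusion hle).commutes a).symm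
  have halg : Algebra.IsAlgebraic (fld (RatFunc k) (xpt z)) (fld (RatFunc k) z) := by
    refine ⟨fun a => ?_⟩
    have h1 := fld_isAlgebraic hz hb (fld (RatFunc k) (xpt z)) (xc_mem z) a.1 a.2
    obtain ⟨P, hP0, hP⟩ := h1
    refine ⟨P, hP0, ?_⟩
    apply (fld (RatFunc k) z).val.injective
    rw [map_zero, ← hP]
    change (fld (RatFunc k) z).val.toRingHom _ = _
    rw [Polynomial.aeval_def, Polynomial.aeval_def, Polynomial.hom_eval₂]
    rfl
  have h2 := trdeg_add_eq (RatFunc k) (fld (RatFunc k) (xpt z)) (A := fld (RatFunc k) z)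
  have h3 : Algebra.trdeg (fld (RatFunc k) (xpt z)) (fld (RatFunc k) z) = 0 := trdeg_eq_zero
  rw [← h2, h3, add_zero]

end alg

end Pool.Agent.Helper1.KL
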