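import Pool.Agent.Helper1.KL.Stmts2
import Pool.Agent.Helper1.KL.GeneralB

set_option autoImplicit false
set_option linter.unusedSectionVars false

/-!
Project KL (MP_0b9e0b_ag), KL-14: the assembly.
-/

namespace Pool.Agent.Helper1.KL

open Pool.Agent.Helper16

variable {k : Type} [Field k] {p : ℕ} [Fact p.Prime] [CharP k p] {n : ℕ} {b : Fin n → k} {r : ℕ}

/-- The index of the pair `(I, ρ)`. -/
def tau (I : Finset (Fin n)) (ρ : Fin n → ZMod p) : Fin n → Option (ZMod p) :=
  fun i => if i ∈ I then some (ρ i) else none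

theorem IT_tau (I : Finset (Fin n)) (ρ : Fin n → ZMod p) : IT (tau I ρ) = I := by
  classical
  ext i
  unfold IT tau
  rw [Finset.mem_filter_univ]
  by_cases hi : i ∈ I <;> simp [hi]

theorem RT_tau (I : Finset (Fin n)) (ρ : Fin n → ZMod p) (h : ∀ i ∉ I, ρ i = 0) :
    RT (tau I ρ) = ρ := by
  funext i
  unfold RT tau
  by_cases hi : i ∈ I
  · simp [hi]
  · simp [hi, h i hi]

theorem tau_mem_Idx (I : Finset (Fin n)) (ρ : Fin n → ZMod p) (h : ∀ i ∉ I, ρ i = 0)
    (h0 : ρ ≠ 0) : tau I ρ ∈ Idx p n := by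
  obtain ⟨i, hi⟩ := Function.ne_iff.1 h0
  refine ⟨i, ?_⟩
  have hiI : i ∈ I := by
    by_contra hiI
    exact hi (h i hiI)
  unfold coef tau
  rw [if_pos hiI, Option.getD_some]
  intro h1
  exact hi ((ZMod.val_eq_zero _).1 h1)

/-- The image of the cycles on `YV`. -/
theorem SP_le_map {τ : Fin n → Option (ZMod p)}
    {Ψ : (Key k (Fin n) →₀ ℚ) →ₗ[ℚ] QX p b r}
    (hΨ : ∀ (N : Type) [Field N] [Algebra k N] [Algebra (RatFunc k) N]
      [IsScalarTower k (RatFunc k) N]
      (z : Fin n ⊕ Fin n → Option N), Good p b r (IT τ) z → Vert k r z →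
      Xc (RT τ) z = 0 → Bc b (RT τ) z = 0 → ec (RT τ) z = 1 →
      YV b τ N (xpt z) ∧ Algebra.trdeg k (fld k (xpt z)) = r ∧
      SS p b r (RT τ) z ∈ Submodule.span ℚ {Ψ (Finsupp.single (key k (xpt z)) 1)}) :
    SP p b r (IT τ) (RT τ) (P1 k p b r (RT τ)) ≤ (cyc (YV b τ) r).map Ψ := by
  unfold SP
  rw [Submodule.span_le]
  rintro _ ⟨N, _, _, _, _, z, hz, ⟨h1, h2, h3, h4⟩, rfl⟩
  obtain ⟨h5, h6, h7⟩ := hΨ N z hz h1 h2 h3 h4
  refine (Submodule.span_le.2 ?_) h7
  rw [Set.singleton_subset_iff]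
  refine Submodule.mem_map_of_mem (Submodule.subset_span ?_)
  exact ⟨N, inferInstance, inferInstance, xpt z, h5, h6, rfl⟩

open scoped Classical in
/-- The classes of the coordinate subvarieties. -/
noncomputable def TT (p : ℕ) [Fact p.Prime] {n : ℕ} (b : Fin n → k) (r : ℕ)
    (I : Finset (Fin n)) : QX p b r :=
  if h : ∃ q, ∃ (N : Type) (_ : Field N) (_ : Algebra (RatFunc k) N)
    (z : Fin n ⊕ Fin n → Option N), Good p b r I z ∧ q = SS p b r 0 z then h.choose else 0

theorem SS_zero_eq (h0' : Mod0' k p b r) {I : Finset (Fin n)} (hr : r = I.card) {N : Type}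
    [Field N] [Algebra (RatFunc k) N] {z : Fin n ⊕ Fin n → Option N} (hz : Good p b r I z) :
    SS p b r 0 z = TT p b r I := by
  have h : ∃ q, ∃ (N : Type) (_ : Field N) (_ : Algebra (RatFunc k) N)
    (z : Fin n ⊕ Fin n → Option N), Good p b r I z ∧ q = SS p b r 0 z :=
    ⟨_, N, inferInstance, inferInstance, z, hz, rfl⟩
  unfold TT
  rw [dif_pos h]
  obtain ⟨N', _, _, z', hz', h1⟩ := h.choose_spec
  rw [h1]
  exact h0' N N' I z z' hr hz hz'

theorem SP_zero_le (h0 : Mod0 k p b r) (h0' : Mod0' k p b r) (hdim : ModDim k p b r)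
    (I : Finset (Fin n)) :
    SP p b r I 0 (fun _ _ _ _ _ => True) ≤ GG p b r I.card ⊔
      (if r = I.card then Submodule.span ℚ {TT p b r I} else ⊥) := by
  unfold SP
  rw [Submodule.span_le]
  rintro _ ⟨N, _, _, _, _, z, hz, -, rfl⟩
  have h1 := hdim N I z hz
  rcases h1.lt_or_eq with h2 | h2
  · exact Submodule.mem_sup_left (h0 N I z h2 hz)
  · rw [if_pos h2]
    refine Submodule.mem_sup_right ?_
    rw [SS_zero_eq h0' h2 hz]
    exact Submodule.mem_span_singleton_self _

theorem TT_span_rank (m : ℕ) :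
    Module.rank ℚ (⨆ (I : Finset (Fin n)) (_ : I.card = m),
      (if r = I.card then Submodule.span ℚ {TT p b r I} else ⊥) : Submodule ℚ (QX p b r)) ≤
      ((if r = m then n.choose m else 0 : ℕ) : Cardinal) := by
  classical
  by_cases hr : r = m
  · rw [if_pos hr]
    set S : Finset (QX p b r) := (Finset.powersetCard m Finset.univ).image (TT p b r) with hS
    have h1 : (⨆ (I : Finset (Fin n)) (_ : I.card = m),
        (if r = I.card then Submodule.span ℚ {TT p b r I} else ⊥) : Submodule ℚ (QX p b r)) ≤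
        Submodule.span ℚ (S : Set (QX p b r)) := by
      refine iSup_le fun I => iSup_le fun hI => ?_
      rw [if_pos (hr.trans hI.symm)]
      refine Submodule.span_mono ?_
      rw [Set.singleton_subset_iff, Finset.mem_coe, hS, Finset.mem_image]
      exact ⟨I, by simp [hI], rfl⟩
    refine (Submodule.rank_mono h1).trans ((rank_span_finset_le _).trans ?_)
    rw [Nat.cast_le]
    refine Finset.card_image_le.trans ?_
    rw [Finset.card_powersetCard, Finset.card_univ, Fintype.card_fin]
  · rw [if_neg hr]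
    have h1 : (⨆ (I : Finset (Fin n)) (_ : I.card = m),
        (if r = I.card then Submodule.span ℚ {TT p b r I} else ⊥) : Submodule ℚ (QX p b r)) = ⊥ := by
      rw [eq_bot_iff]
      refine iSup_le fun I => iSup_le fun hI => ?_
      rw [if_neg (by rw [hI]; exact hr)]
    rw [h1]
    simp

open scoped Classical in
theorem step (hdec : ModDec k p b r) (hcomb : ModComb k p b r) (hdim : ModDim k p b r)
    (h0 : Mod0 k p b r) (h0' : Mod0' k p b r) (hpsi : ∀ τ, ModPsi k p b r τ) (hlin : LinStep)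
    (m : ℕ) :
    Module.rank ℚ (GG p b r (m + 1)) ≤ Module.rank ℚ (GG p b r m) +
      ((if r = m then n.choose m else 0 : ℕ) : Cardinal) +
      ∑ τ : Fin n → Option (ZMod p) with τ ∈ Idx p n ∧ (IT τ).card = m,
        Module.rank ℚ (CHY b τ r) := by
  choose Ψ hΨ1 hΨ2 using hpsi
  refine hlin (Key k (Fin n) →₀ ℚ) (QX p b r) (Fin n → Option (ZMod p)) (GG p b r m)
    (GG p b r (m + 1)) (⨆ (I : Finset (Fin n)) (_ : I.card = m),
      (if r = I.card then Submodule.span ℚ {TT p b r I} else ⊥))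
    (if r = m then n.choose m else 0)
    ({τ : Fin n → Option (ZMod p) | τ ∈ Idx p n ∧ (IT τ).card = m} : Finset _)
    (fun τ => cyc (YV b τ) r)
    (fun τ => rat (YV b τ)
      (fun N _ _ x f => YV b τ N x ∨ (AV (k := k) τ N x ∧ f = Bfun b τ x)) r)
    Ψ (TT_span_rank m) ?_ ?_
  · intro τ hτ c hc
    rw [Finset.mem_filter_univ] at hτ
    rw [← hτ.2]
    exact hΨ2 τ c hc
  · refine (hdec m).trans (sup_le (le_sup_left.trans le_sup_left) ?_)
    refine iSup_le fun I => iSup_le fun hI => ?_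
    refine (hcomb I).trans ?_
    rw [hI]
    refine sup_le (sup_le (le_sup_left.trans le_sup_left) ?_) ?_
    · refine (SP_zero_le h0 h0' hdim I).trans ?_
      rw [hI]
      refine le_sup_of_le_left (sup_le_sup le_rfl ?_)
      refine le_iSup_of_le I (le_iSup_of_le hI ?_)
      rw [hI]
    · refine iSup_le fun ρ => iSup_le fun hρ0 => iSup_le fun hρI => ?_
      refine le_sup_of_le_right ?_
      refine le_iSup_of_le (tau I ρ) (le_iSup_of_le ?_ ?_)
      · rw [Finset.mem_filter_univ]
        exact ⟨tau_mem_Idx I ρ hρI hρ0, by rw [IT_tau, hI]⟩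
      · have h1 := SP_le_map (b := b) (r := r) (hΨ1 (tau I ρ))
        rw [IT_tau, RT_tau I ρ hρI] at h1
        exact h1

open scoped Classical in
theorem rank_GG_le (hdec : ModDec k p b r) (hcomb : ModComb k p b r) (hdim : ModDim k p b r)
    (h0 : Mod0 k p b r) (h0' : Mod0' k p b r) (hpsi : ∀ τ, ModPsi k p b r τ) (hlin : LinStep)
    (m : ℕ) :
    Module.rank ℚ (GG p b r m) ≤ ((if r < m then n.choose r else 0 : ℕ) : Cardinal) +
      ∑ τ : Fin n → Option (ZMod p) with τ ∈ Idx p n ∧ (IT τ).card < m,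
        Module.rank ℚ (CHY b τ r) := by
  induction m with
  | zero =>
    have h1 : GG p b r 0 = ⊥ := by
      unfold GG
      rw [Submodule.span_eq_bot]
      rintro _ ⟨N, _, _, z, -, -, h, -⟩
      exact (Nat.not_lt_zero _ h).elim
    rw [h1]
    simp
  | succ m ih =>
    refine (step hdec hcomb hdim h0 h0' hpsi hlin m).trans ?_
    have h2 : ({τ : Fin n → Option (ZMod p) | τ ∈ Idx p n ∧ (IT τ).card < m + 1} : Finset _) =
        ({τ : Fin n → Option (ZMod p) | τ ∈ Idx p n ∧ (IT τ).card < m} : Finset _) ∪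
        ({τ : Fin n → Option (ZMod p) | τ ∈ Idx p n ∧ (IT τ).card = m} : Finset _) := by
      ext τ
      simp only [Finset.mem_union, Finset.mem_filter_univ]
      rw [Nat.lt_succ_iff_lt_or_eq]
      tauto
    have h3 : Disjoint
        ({τ : Fin n → Option (ZMod p) | τ ∈ Idx p n ∧ (IT τ).card < m} : Finset _)
        ({τ : Fin n → Option (ZMod p) | τ ∈ Idx p n ∧ (IT τ).card = m} : Finset _) := by
      rw [Finset.disjoint_left]
      intro τ h4 h5
      rw [Finset.mem_filter_univ] at h4 h5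
      omega
    rw [h2, Finset.sum_union h3]
    have h4 : ((if r < m + 1 then n.choose r else 0 : ℕ) : Cardinal.{0}) =
        ((if r < m then n.choose r else 0 : ℕ) : Cardinal) +
        ((if r = m then n.choose m else 0 : ℕ) : Cardinal) := by
      rw [← Nat.cast_add]
      congr 1
      by_cases h5 : r < m
      · rw [if_pos h5, if_pos (by omega), if_neg (by omega), add_zero]
      · by_cases h6 : r = m
        · rw [if_neg h5, if_pos h6, if_pos (by omega), zero_add, h6]
        · rw [if_neg h5, if_neg h6, if_neg (by omega)]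
    rw [h4]
    refine (add_le_add (add_le_add ih le_rfl) le_rfl).trans (le_of_eq ?_)
    ring

theorem rank_CHX_le : Module.rank ℚ (CHX p b r) ≤ Module.rank ℚ (GG p b r (n + 1)) := by
  let R := rat (XV p b) (fun N _ _ z _ => XV p b N z) r
  let C := cyc (XV p b) r
  let f : C →ₗ[ℚ] QX p b r := R.mkQ.comp C.subtype
  have hker : LinearMap.ker f = R.submoduleOf C := by
    ext c
    simp only [f, LinearMap.mem_ker, LinearMap.comp_apply, Submodule.subtype_apply,
      Submodule.mkQ_apply, Submodule.Quotient.mk_eq_zero, Submodule.submoduleOf,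
      Submodule.mem_comap]
  have e1 : CHX p b r ≃ₗ[ℚ] LinearMap.range f :=
    (Submodule.quotEquivOfEq _ _ hker.symm).trans f.quotKerEquivRange
  rw [e1.rank_eq]
  refine Submodule.rank_mono ?_
  rintro _ ⟨⟨c, hc⟩, rfl⟩
  change R.mkQ c ∈ _
  have hc' : c ∈ cyc (XV p b) r := hc
  unfold cyc at hc'
  refine Submodule.span_induction (p := fun c _ => R.mkQ c ∈ GG p b r (n + 1)) ?_ ?_ ?_ ?_ hc'
  · rintro _ ⟨N, _, _, z, hz, hr, rfl⟩
    refine Submodule.subset_span ⟨N, inferInstance, inferInstance, z, hz, hr, ?_, rfl⟩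
    refine (Finset.card_le_univ _).trans_lt ?_
    rw [Fintype.card_fin]
    exact Nat.lt_succ_self n
  · rw [map_zero]
    exact zero_mem _
  · intro x y _ _ hx hy
    rw [map_add]
    exact add_mem hx hy
  · intro a x _ hx
    rw [map_smul]
    exact Submodule.smul_mem _ a hx

/-- The assembly. -/
theorem main_of (hdec : ModDec k p b r) (hcomb : ModComb k p b r) (hdim : ModDim k p b r)
    (h0 : Mod0 k p b r) (h0' : Mod0' k p b r) (hpsi : ∀ τ, ModPsi k p b r τ) (hlin : LinStep) :
    Main k p n b r := by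
  classical
  unfold Main
  refine rank_CHX_le.trans ((rank_GG_le hdec hcomb hdim h0 h0' hpsi hlin (n + 1)).trans ?_)
  refine add_le_add ?_ ?_
  · rw [Nat.cast_le]
    split_ifs
    · exact le_rfl
    · exact Nat.zero_le _
  · refine Finset.sum_le_sum_of_subset_of_nonneg ?_ fun _ _ _ => zero_le
    intro τ hτ
    rw [Finset.mem_filter_univ] at hτ ⊢
    exact hτ.1

end Pool.Agent.Helper1.KL
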