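import Pool.Agent.Helper1.KL.Base

set_option autoImplicit false

/-!
Project KL (MP_0b9e0b_ag): the statements of the modules.
-/

namespace Pool.Agent.Helper1.KL

open Pool.Agent.Helper16

variable (k : Type) [Field k] (p : ℕ) [Fact p.Prime] [CharP k p] {n : ℕ} (b : Fin n → k) (r : ℕ)

/-- KL-2. A relation, summed over the translations in `H`, with only positivity used. -/
def ModPos : Prop :=
  ∀ (M : Type) [Field M] [Algebra (RatFunc k) M], Algebra.EssFiniteType (RatFunc k) M →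
    Algebra.trdeg (RatFunc k) M = r + 1 →
    ∀ z : Fin n ⊕ Fin n → Option M, XV p b M z → ∀ f : M, f ≠ 0 →
    ∀ (H : Finset (Fin n → ZMod p)) (W : Submodule ℚ (QX p b r)) (α : QX p b r),
    (∀ v : Place (RatFunc k) M, v.ord f ≠ 0 → XV p b v.resField (spec v z) →
      Algebra.trdeg (RatFunc k) (fld (RatFunc k) (spec v z)) = r →
      SH p b r H (spec v z) ∈ W ∨ (0 < v.ord f ∧ SH p b r H (spec v z) = α)) →
    (∃ v : Place (RatFunc k) M, 0 < v.ord f ∧ XV p b v.resField (spec v z) ∧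
      Algebra.trdeg (RatFunc k) (fld (RatFunc k) (spec v z)) = r ∧
      SH p b r H (spec v z) = α) → α ∈ W

/-- KL-4. The sum `SS ρ z` depends only on the reduced point, and so does the relative degree. -/
def ModS : Prop :=
  ∀ (N N' : Type) [Field N] [Field N'] [Algebra (RatFunc k) N] [Algebra (RatFunc k) N']
    (z : Fin n ⊕ Fin n → Option N) (z' : Fin n ⊕ Fin n → Option N') (ρ : Fin n → ZMod p),
    XV p b N z → XV p b N' z' → key (RatFunc k) (red ρ z) = key (RatFunc k) (red ρ z') →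
    SS p b r ρ z = SS p b r ρ z' ∧
    (fld (RatFunc k) (red ρ z)).relfinrank (fld (RatFunc k) z) =
      (fld (RatFunc k) (red ρ z')).relfinrank (fld (RatFunc k) z')

/-- KL-5. Existence of a point with given coordinates `x` and given `e` over a finite separable
extension. -/
def ModLift : Prop :=
  ∀ (L : Type) [Field L] [Algebra (RatFunc k) L] (I : Finset (Fin n)) (ρ : Fin n → ZMod p)
    (x : Fin n → L) (ε : L), (∀ i ∉ I, ρ i = 0) → (ρ = 0 → ε = 0) → (∀ i ∈ I, x i ≠ 0) →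
    ε ^ p - ε = algebraMap (RatFunc k) L RatFunc.X * ∑ i ∈ I, (ρ i).cast * x i +
      ∑ i ∈ I, (ρ i).cast * algebraMap (RatFunc k) L (RatFunc.C (b i)) * (x i)⁻¹ →
    ∃ (M : Type) (_ : Field M) (_ : Algebra L M) (_ : Algebra (RatFunc k) M)
      (_ : IsScalarTower (RatFunc k) L M) (_ : FiniteDimensional L M) (_ : Algebra.IsSeparable L M)
      (z : Fin n ⊕ Fin n → Option M), XV p b M z ∧
      (∀ i ∈ I, z (Sum.inl i) = some (algebraMap L M (x i)) ∧ z (Sum.inr i) ≠ none) ∧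
      (∀ i ∉ I, z (Sum.inl i) = none) ∧ ec ρ z = algebraMap L M ε

/-- KL-6. The homotopy lemma. `N` is the field of the point `z`, and `κ` is a homomorphism of
`k(t)` to `N(s)` over `k`, `x' i` and `ε` in `N(s)` are the coordinates of a moving point which at
`s = 0` specialises to `z`. -/
def ModHom : Prop :=
  ∀ (N : Type) [Field N] [Algebra k N] [Algebra (RatFunc k) N] [IsScalarTower k (RatFunc k) N]
    (I : Finset (Fin n)) (z : Fin n ⊕ Fin n → Option N) (ρ : Fin n → ZMod p)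
    (κ : RatFunc k →+* RatFunc N) (x' : Fin n → RatFunc N) (ε : RatFunc N)
    (W : Submodule ℚ (QX p b r)),
    Algebra.EssFiniteType (RatFunc k) N → Algebra.trdeg (RatFunc k) N = r →
    Good p b r I z → (∀ i ∉ I, ρ i = 0) → (ρ = 0 → ε = 0) →
    (∀ a : k, κ (RatFunc.C a) = RatFunc.C (algebraMap k N a)) →
    At0 (κ RatFunc.X) (algebraMap (RatFunc k) N RatFunc.X) →
    (∀ i ∈ I, x' i ≠ 0 ∧ At0 (x' i) (xc z i)) → At0 ε (ec ρ z) →
    ε ^ p - ε = κ RatFunc.X * ∑ i ∈ I, (ρ i).cast * x' i +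
      ∑ i ∈ I, (ρ i).cast * κ (RatFunc.C (b i)) * (x' i)⁻¹ →
    (∀ (M : Type) [Field M] [Algebra (RatFunc k) M] (j : RatFunc N →+* M)
      (z' : Fin n ⊕ Fin n → Option M) (v : Place (RatFunc k) M),
      algebraMap (RatFunc k) M = j.comp κ → Algebra.EssFiniteType (RatFunc k) M →
      Algebra.trdeg (RatFunc k) M = r + 1 → (∀ a : M, IsAlgebraic j.fieldRange a) →
      XV p b M z' → (∀ i ∈ I, z' (Sum.inl i) = some (j (x' i)) ∧ z' (Sum.inr i) ≠ none) →
      (∀ i ∉ I, z' (Sum.inl i) = none) → ec ρ z' = j ε →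
      v.ord (j RatFunc.X) ≠ 0 → XV p b v.resField (spec v z') →
      Algebra.trdeg (RatFunc k) (fld (RatFunc k) (spec v z')) = r →
      SS p b r ρ (spec v z') ∈ W ∨ (0 < v.ord (j RatFunc.X) ∧
        key (RatFunc k) (red ρ (spec v z')) = key (RatFunc k) (red ρ z))) →
    SS p b r ρ z ∈ W

/-- KL-7. `SS 0 z` vanishes modulo `GG` if `r < m`. -/
def Mod0 : Prop :=
  ∀ (N : Type) [Field N] [Algebra (RatFunc k) N] (I : Finset (Fin n))
    (z : Fin n ⊕ Fin n → Option N), r < I.card → Good p b r I z → SS p b r 0 z ∈ GG p b r I.card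

/-- KL-7b. `SS 0 z` is unique if `r = m`. -/
def Mod0' : Prop :=
  ∀ (N N' : Type) [Field N] [Field N'] [Algebra (RatFunc k) N] [Algebra (RatFunc k) N']
    (I : Finset (Fin n)) (z : Fin n ⊕ Fin n → Option N) (z' : Fin n ⊕ Fin n → Option N'),
    r = I.card → Good p b r I z → Good p b r I z' → SS p b r 0 z = SS p b r 0 z'

/-- KL-8. Reduction to vertical points. -/
def ModV : Prop :=
  ∀ (N : Type) [Field N] [Algebra k N] [Algebra (RatFunc k) N] [IsScalarTower k (RatFunc k) N]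
    (I : Finset (Fin n)) (z : Fin n ⊕ Fin n → Option N) (ρ : Fin n → ZMod p),
    Good p b r I z → (∀ i ∉ I, ρ i = 0) → ρ ≠ 0 →
    SS p b r ρ z ∈ GG p b r I.card ⊔ SP p b r I ρ (fun _ _ _ _ z => Vert k r z) ∧
    (Xc ρ z = 0 → Bc b ρ z = 0 → SS p b r ρ z ∈ GG p b r I.card ⊔
      SP p b r I ρ (fun _ _ _ _ z => Vert k r z ∧ Xc ρ z = 0 ∧ Bc b ρ z = 0))

/-- KL-9a. The automorphism `e ↦ e + 1` for vertical points with `X ≠ 0`. -/
def ModA1 : Prop :=
  ∀ (N : Type) [Field N] [Algebra k N] [Algebra (RatFunc k) N] [IsScalarTower k (RatFunc k) N]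
    (I : Finset (Fin n)) (z : Fin n ⊕ Fin n → Option N) (ρ : Fin n → ZMod p),
    Good p b r I z → (∀ i ∉ I, ρ i = 0) → Vert k r z → Xc ρ z ≠ 0 →
    ∀ h : Fin n → ZMod p, key (RatFunc k) (red ρ z) = key (RatFunc k) (red ρ (tr h z))

/-- KL-9b. The automorphism `e ↦ e + 1` for cones with `X = 0` and `B ≠ 0`. -/
def ModA2 : Prop :=
  ∀ (N : Type) [Field N] [Algebra (RatFunc k) N]
    (I : Finset (Fin n)) (z : Fin n ⊕ Fin n → Option N) (ρ : Fin n → ZMod p),
    Good p b r I z → (∀ i ∉ I, ρ i = 0) → Con (RatFunc k) r z → Xc ρ z = 0 → Bc b ρ z ≠ 0 →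
    ∀ h : Fin n → ZMod p, key (RatFunc k) (red ρ z) = key (RatFunc k) (red ρ (tr h z))

/-- KL-10. The scaling homotopy. -/
def ModSc : Prop :=
  ∀ (N : Type) [Field N] [Algebra k N] [Algebra (RatFunc k) N] [IsScalarTower k (RatFunc k) N]
    (I : Finset (Fin n)) (z : Fin n ⊕ Fin n → Option N) (ρ : Fin n → ZMod p),
    Good p b r I z → (∀ i ∉ I, ρ i = 0) → ρ ≠ 0 → Xc ρ z = 0 → Bc b ρ z ≠ 0 →
    SS p b r ρ z ∈ GG p b r I.card ⊔
      SP p b r I ρ (fun _ _ _ _ z => Xc ρ z = 0 ∧ (Bc b ρ z = 0 ∨ Con (RatFunc k) r z))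

open scoped Classical in
/-- KL-11. The labels `x j = 0` and `x j = ∞`. -/
def ModLabel : Prop :=
  ∀ (N : Type) [Field N] [Algebra (RatFunc k) N] (z : Fin n ⊕ Fin n → Option N),
    XV p b N z → Algebra.trdeg (RatFunc k) (fld (RatFunc k) z) = r →
    ∀ j : Fin n, z (Sum.inl j) = some 0 →
    cl p b r z ∈ Submodule.span ℚ {cl p b r (Function.update z (Sum.inl j) none)}

/-- The set of the indices with `τ i ≠ none`. -/
def IT {p n : ℕ} (τ : Fin n → Option (ZMod p)) : Finset (Fin n) := {i | τ i ≠ none}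

/-- The coefficients of `τ`. -/
def RT {p n : ℕ} (τ : Fin n → Option (ZMod p)) (i : Fin n) : ZMod p := (τ i).getD 0

/-- KL-12. The map from cycles on `YV b τ` to cycles on `X`. -/
def ModPsi (τ : Fin n → Option (ZMod p)) : Prop :=
  ∃ Ψ : (Key k (Fin n) →₀ ℚ) →ₗ[ℚ] QX p b r,
    (∀ (N : Type) [Field N] [Algebra k N] [Algebra (RatFunc k) N] [IsScalarTower k (RatFunc k) N]
      (z : Fin n ⊕ Fin n → Option N), Good p b r (IT τ) z → Vert k r z →
      Xc (RT τ) z = 0 → Bc b (RT τ) z = 0 → ec (RT τ) z = 1 →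
      YV b τ N (xpt z) ∧ Algebra.trdeg k (fld k (xpt z)) = r ∧
      SS p b r (RT τ) z ∈ Submodule.span ℚ {Ψ (Finsupp.single (key k (xpt z)) 1)}) ∧
    ∀ c ∈ rat (YV b τ) (fun N _ _ x f => YV b τ N x ∨ (AV (k := k) τ N x ∧ f = Bfun b τ x)) r,
      Ψ c ∈ GG p b r (IT τ).card

end Pool.Agent.Helper1.KL
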