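import Pool.Agent.Helper1.KL.Defs

set_option autoImplicit false

/-!
Project KL (MP_0b9e0b_ag): auxiliary definitions for the proof (not used in the statement).

Conventions: `K = RatFunc k`, `σ = Fin n ⊕ Fin n`; `z (inl i)` is the coordinate `x i` and
`z (inr i)` the coordinate `y i` of a point `z` of `X`.
-/

namespace Pool.Agent.Helper1.KL

open Pool.Agent.Helper16

/-! ### General notions -/

/-- The group of cycles modulo the relations in which all classes are taken. -/
abbrev Quo {F σ : Type} [Field F] (V : Var F σ) (P : VarF F σ) (r : ℕ) : Type :=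
  (Key F σ →₀ ℚ) ⧸ rat V P r

/-- The class of the closure of a point. -/
noncomputable def cls {F σ : Type} [Field F] (V : Var F σ) (P : VarF F σ) (r : ℕ) {N : Type}
    [Field N] [Algebra F N] (z : σ → Option N) : Quo V P r :=
  Submodule.Quotient.mk (Finsupp.single (key F z) 1)

/-! ### Points of the product of Kloosterman curves -/

section X

variable {k : Type} [Field k] (p : ℕ) {n : ℕ} (b : Fin n → k) (r : ℕ)

/-- Cycles on `X` modulo the relations. -/
abbrev QX : Type := Quo (XV p b) (fun N _ _ z _ => XV p b N z) r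

/-- The class of a point of `X`. -/
noncomputable abbrev cl {N : Type} [Field N] [Algebra (RatFunc k) N]
    (z : Fin n ⊕ Fin n → Option N) : QX p b r :=
  cls (XV p b) (fun N _ _ z _ => XV p b N z) r z

end X

section Points

variable {n : ℕ} {N : Type} [Field N]

open scoped Classical in
/-- The indices of the affine coordinates. -/
noncomputable def aff (z : Fin n ⊕ Fin n → Option N) : Finset (Fin n) :=
  {i | z (Sum.inr i) ≠ none}

/-- `x i`, with the value `0` if it is infinite. -/
def xc (z : Fin n ⊕ Fin n → Option N) (i : Fin n) : N := (z (Sum.inl i)).getD 0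

/-- `y i`, with the value `0` if it is infinite. -/
def yc (z : Fin n ⊕ Fin n → Option N) (i : Fin n) : N := (z (Sum.inr i)).getD 0

/-- The translation by `h` in `(ℤ/p)^n` in the coordinates `y i`. -/
def tr {p : ℕ} (h : Fin n → ZMod p) (z : Fin n ⊕ Fin n → Option N) : Fin n ⊕ Fin n → Option N
  | Sum.inl i => z (Sum.inl i)
  | Sum.inr i => (z (Sum.inr i)).map fun c => c + (h i).cast

/-- `e = ∑ ρ_i y_i`. -/
def ec {p : ℕ} (ρ : Fin n → ZMod p) (z : Fin n ⊕ Fin n → Option N) : N :=
  ∑ i, (ρ i).cast * yc z i

/-- `∑ ρ_i x_i`. -/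
def Xc {p : ℕ} (ρ : Fin n → ZMod p) (z : Fin n ⊕ Fin n → Option N) : N :=
  ∑ i, (ρ i).cast * xc z i

/-- `∑ ρ_i b_i / x_i`. -/
noncomputable def Bc {k : Type} [Field k] [Algebra (RatFunc k) N] {p : ℕ} (b : Fin n → k)
    (ρ : Fin n → ZMod p) (z : Fin n ⊕ Fin n → Option N) : N :=
  ∑ i, (ρ i).cast * algebraMap (RatFunc k) N (RatFunc.C (b i)) * (xc z i)⁻¹

/-- The reduced point: the coordinates `x i` and `e = ∑ ρ_i y_i`. -/
def red {p : ℕ} (ρ : Fin n → ZMod p) (z : Fin n ⊕ Fin n → Option N) : Fin n ⊕ Unit → Option N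
  | Sum.inl i => z (Sum.inl i)
  | Sum.inr _ => some (ec ρ z)

/-- The coordinates `x i` only. -/
def xpt (z : Fin n ⊕ Fin n → Option N) : Fin n → Option N := fun i => z (Sum.inl i)

end Points

/-- The orthogonal complement of `ρ`. -/
def perp {p n : ℕ} [NeZero p] (ρ : Fin n → ZMod p) : Finset (Fin n → ZMod p) :=
  {h | ∑ i, ρ i * h i = 0}

section Classes

variable {k : Type} [Field k] (p : ℕ) {n : ℕ} (b : Fin n → k) (r : ℕ)

/-- The sum of the classes of the translates of `z` by the elements of `H`. -/
noncomputable def SH (H : Finset (Fin n → ZMod p)) {N : Type} [Field N] [Algebra (RatFunc k) N]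
    (z : Fin n ⊕ Fin n → Option N) : QX p b r :=
  ∑ h ∈ H, cl p b r (tr h z)

/-- The sum of the classes of the translates of `z` by the complement of `ρ`. -/
noncomputable abbrev SS [NeZero p] (ρ : Fin n → ZMod p) {N : Type} [Field N]
    [Algebra (RatFunc k) N] (z : Fin n ⊕ Fin n → Option N) : QX p b r :=
  SH p b r (perp ρ) z

/-- `z` is a point of dimension `r` of `X` over `N` whose affine coordinates are those with an
index in `I`, and all other coordinates are infinite. -/
structure Good (I : Finset (Fin n)) {N : Type} [Field N] [Algebra (RatFunc k) N]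
    (z : Fin n ⊕ Fin n → Option N) : Prop where
  mem : XV p b N z
  aff : ∀ i ∈ I, z (Sum.inr i) ≠ none
  inf : ∀ i ∉ I, z (Sum.inl i) = none
  dim : Algebra.trdeg (RatFunc k) (fld (RatFunc k) z) = r

/-- The span of the classes of the points of dimension `r` with less than `m` affine
coordinates. -/
noncomputable def GG (m : ℕ) : Submodule ℚ (QX p b r) :=
  Submodule.span ℚ {q | ∃ (N : Type) (_ : Field N) (_ : Algebra (RatFunc k) N)
    (z : Fin n ⊕ Fin n → Option N), XV p b N z ∧
    Algebra.trdeg (RatFunc k) (fld (RatFunc k) z) = r ∧ (aff z).card < m ∧ q = cl p b r z}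

/-- A property of points. -/
abbrev Prp (k : Type) [Field k] (n : ℕ) : Type 1 :=
  ∀ (N : Type) [Field N] [Algebra k N] [Algebra (RatFunc k) N],
    (Fin n ⊕ Fin n → Option N) → Prop

/-- The span of the sums `SS ρ z`, for the points `z` of dimension `r` with `Good I z` and with
the property `P`. -/
noncomputable def SP [NeZero p] (I : Finset (Fin n)) (ρ : Fin n → ZMod p) (P : Prp k n) :
    Submodule ℚ (QX p b r) :=
  Submodule.span ℚ {q | ∃ (N : Type) (_ : Field N) (_ : Algebra k N) (_ : Algebra (RatFunc k) N)
    (_ : IsScalarTower k (RatFunc k) N) (z : Fin n ⊕ Fin n → Option N), Good p b r I z ∧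
    P N z ∧ q = SS p b r ρ z}

end Classes

/-- The field generated over `K` by the quotients of the coordinates `x i`. -/
noncomputable def ratf (K : Type) [Field K] {n : ℕ} {N : Type} [Field N] [Algebra K N]
    (z : Fin n ⊕ Fin n → Option N) : IntermediateField K N :=
  IntermediateField.adjoin K {a | ∃ i j, a = xc z i / xc z j}

/-- The point is vertical: `t` is transcendental over `k(x)` if the dimension is `r`. -/
def Vert (k : Type) [Field k] (r : ℕ) {n : ℕ} {N : Type} [Field N] [Algebra k N]
    (z : Fin n ⊕ Fin n → Option N) : Prop :=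
  Algebra.trdeg k (fld k (xpt z)) ≤ r

/-- The point is a cone. -/
def Con (K : Type) [Field K] (r : ℕ) {n : ℕ} {N : Type} [Field N] [Algebra K N]
    (z : Fin n ⊕ Fin n → Option N) : Prop :=
  Algebra.trdeg K (ratf K z) + 1 ≤ r

/-- The rational function `g` over `N` is regular at `0` with the value `a`. -/
def At0 {N : Type} [Field N] (g : RatFunc N) (a : N) : Prop :=
  ∃ P Q : Polynomial N, Q.eval 0 = 1 ∧ P.eval 0 = a ∧
    g = algebraMap (Polynomial N) (RatFunc N) P / algebraMap (Polynomial N) (RatFunc N) Q

end Pool.Agent.Helper1.KL
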