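import Pool.Agent.Helper1.KL.Stmts

set_option autoImplicit false

/-!
Project KL (MP_0b9e0b_ag): the statements of the modules, second part (KL-14).
-/

namespace Pool.Agent.Helper1.KL

open Pool.Agent.Helper16

variable (k : Type) [Field k] (p : ℕ) [Fact p.Prime] [CharP k p] {n : ℕ} (b : Fin n → k) (r : ℕ)

/-- The span of the classes of the good points for `I`. -/
noncomputable def GI (I : Finset (Fin n)) : Submodule ℚ (QX p b r) :=
  Submodule.span ℚ {q | ∃ (N : Type) (_ : Field N) (_ : Algebra k N) (_ : Algebra (RatFunc k) N)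
    (_ : IsScalarTower k (RatFunc k) N) (z : Fin n ⊕ Fin n → Option N), Good p b r I z ∧
    q = cl p b r z}

/-- KL-14a. -/
def ModDec : Prop :=
  ∀ m : ℕ, GG p b r (m + 1) ≤ GG p b r m ⊔ ⨆ (I : Finset (Fin n)) (_ : I.card = m), GI k p b r I

/-- The property of the final points. -/
def P1 (ρ : Fin n → ZMod p) : Prp k n :=
  fun _ _ _ _ z => Vert k r z ∧ Xc ρ z = 0 ∧ Bc b ρ z = 0 ∧ ec ρ z = 1

/-- KL-14b. The final points with `e = c`. -/
def ModE : Prop :=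
  ∀ (N : Type) [Field N] [Algebra k N] [Algebra (RatFunc k) N] [IsScalarTower k (RatFunc k) N]
    (I : Finset (Fin n)) (z : Fin n ⊕ Fin n → Option N) (ρ : Fin n → ZMod p),
    Good p b r I z → (∀ i ∉ I, ρ i = 0) → ρ ≠ 0 → Vert k r z → Xc ρ z = 0 → Bc b ρ z = 0 →
    SS p b r ρ z ∈ Submodule.span ℚ {SS p b r 0 z} ⊔
      ⨆ (c : ZMod p) (_ : c ≠ 0), SP p b r I (c • ρ) (P1 k p b r (c • ρ))

/-- KL-14c. All classes of good points. -/
def ModComb : Prop :=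
  ∀ I : Finset (Fin n), GI k p b r I ≤ GG p b r I.card ⊔ SP p b r I 0 (fun _ _ _ _ _ => True) ⊔
    ⨆ (ρ : Fin n → ZMod p) (_ : ρ ≠ 0) (_ : ∀ i ∉ I, ρ i = 0), SP p b r I ρ (P1 k p b r ρ)

/-- KL-14d. The dimension of a good point. -/
def ModDim : Prop :=
  ∀ (N : Type) [Field N] [Algebra (RatFunc k) N] (I : Finset (Fin n))
    (z : Fin n ⊕ Fin n → Option N), Good p b r I z → r ≤ I.card

/-- KL-14e. Linear algebra. -/
def LinStep : Prop :=
  ∀ (E Q ι : Type) [AddCommGroup E] [Module ℚ E] [AddCommGroup Q] [Module ℚ Q]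
    (A B T : Submodule ℚ Q) (t : ℕ) (J : Finset ι) (C R : ι → Submodule ℚ E)
    (Ψ : ι → E →ₗ[ℚ] Q), Module.rank ℚ T ≤ t → (∀ τ ∈ J, ∀ c ∈ R τ, Ψ τ c ∈ A) →
    B ≤ A ⊔ T ⊔ ⨆ τ ∈ J, (C τ).map (Ψ τ) →
    Module.rank ℚ B ≤ Module.rank ℚ A + t +
      ∑ τ ∈ J, Module.rank ℚ (C τ ⧸ (R τ).submoduleOf (C τ))

end Pool.Agent.Helper1.KL
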