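import Pool.Agent.Helper1.KL.Stmts
import Pool.Agent.HC.Spec

set_option autoImplicit false

/-!
Project KL (MP_0b9e0b_ag), KL-1: basic facts on keys, fields of points, points of `X`.
-/

namespace Pool.Agent.Helper1.KL

open Pool.Agent.Helper16

section gen

variable {F σ : Type} [Field F] {N N' : Type} [Field N] [Field N'] [Algebra F N] [Algebra F N']

theorem key_eq_iff (z : σ → Option N) (z' : σ → Option N') :
    key F z = key F z' ↔ (∀ j, z j = none ↔ z' j = none) ∧ ∀ P : MvPolynomial σ F,
      MvPolynomial.aeval (fun j => (z j).getD 0) P = 0 ↔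
        MvPolynomial.aeval (fun j => (z' j).getD 0) P = 0 := by
  unfold key
  rw [Prod.ext_iff]
  refine and_congr ?_ ?_
  · simp only [Set.ext_iff, Set.mem_ofPred_eq]
    exact forall_congr' fun j => not_iff_not
  · simp only [Ideal.ext_iff, RingHom.mem_ker]

theorem getD_map (φ : N →ₐ[F] N') (o : Option N) : (o.map φ).getD 0 = φ (o.getD 0) := by
  cases o <;> simp

theorem aeval_getD_map (φ : N →ₐ[F] N') (z : σ → Option N) (P : MvPolynomial σ F) :
    MvPolynomial.aeval (fun j => ((z j).map φ).getD 0) P =
      φ (MvPolynomial.aeval (fun j => (z j).getD 0) P) := by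
  rw [MvPolynomial.comp_aeval_apply]
  congr 1
  congr 1
  funext j
  exact getD_map φ _

theorem key_map (φ : N →ₐ[F] N') (z : σ → Option N) :
    key F (fun j => (z j).map φ) = key F z := by
  rw [key_eq_iff]
  refine ⟨fun j => by simp, fun P => ?_⟩
  rw [aeval_getD_map, map_eq_zero]

theorem mem_fld {z : σ → Option N} {j : σ} {a : N} (h : z j = some a) : a ∈ fld F z :=
  IntermediateField.subset_adjoin F _ ⟨j, h⟩

theorem getD_mem_fld (z : σ → Option N) (j : σ) : (z j).getD 0 ∈ fld F z := by
  cases h : z j with
  | none => simp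
  | some a => exact mem_fld h

theorem fld_eq_range (z : σ → Option N) :
    fld F z = IntermediateField.adjoin F (Set.range fun j => (z j).getD 0) := by
  refine le_antisymm ?_ ?_
  · unfold fld
    rw [IntermediateField.adjoin_le_iff]
    rintro a ⟨j, hj⟩
    exact IntermediateField.subset_adjoin F _ ⟨j, by simp [hj]⟩
  · rw [IntermediateField.adjoin_le_iff]
    rintro _ ⟨j, rfl⟩
    exact getD_mem_fld z j

theorem fld_map (φ : N →ₐ[F] N') (z : σ → Option N) :
    fld F (fun j => (z j).map φ) = (fld F z).map φ := by
  rw [fld_eq_range, fld_eq_range, IntermediateField.adjoin_map]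
  congr 1
  rw [← Set.range_comp]
  congr 1
  funext j
  exact getD_map φ _

theorem trdeg_fld_map (φ : N →ₐ[F] N') (z : σ → Option N) :
    Algebra.trdeg F (fld F (fun j => (z j).map φ)) = Algebra.trdeg F (fld F z) := by
  rw [fld_map]
  exact (IntermediateField.equivMap (fld F z) φ).symm.trdeg_eq

/-- The point with coordinates in its own field. -/
noncomputable def restr (F : Type) [Field F] [Algebra F N] (z : σ → Option N) :
    σ → Option (fld F z) :=
  fun j => (z j).pmap (fun a h => ⟨a, h⟩) (fun _ h => mem_fld (z := z) (j := j) h)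

theorem restr_map (z : σ → Option N) :
    (fun j => (restr F z j).map (fld F z).val) = z := by
  funext j
  unfold restr
  rw [Option.map_pmap]
  simp

theorem key_restr (z : σ → Option N) : key F (restr F z) = key F z := by
  conv_rhs => rw [← restr_map (F := F) z]
  exact (key_map _ _).symm

theorem fld_restr (z : σ → Option N) : fld F (restr F z) = ⊤ := by
  have h1 := fld_map (fld F z).val (restr F z)
  rw [restr_map] at h1
  have h2 : (⊤ : IntermediateField F (fld F z)).map (fld F z).val = fld F z := by
    rw [← AlgHom.fieldRange_eq_map, IntermediateField.fieldRange_val]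
  exact IntermediateField.map_injective (fld F z).val (h1.symm.trans h2.symm)

theorem trdeg_fld_restr (z : σ → Option N) :
    Algebra.trdeg F (fld F (restr F z)) = Algebra.trdeg F (fld F z) := by
  conv_rhs => rw [← restr_map (F := F) z]
  exact (trdeg_fld_map _ _).symm

theorem essFiniteType_fld [Finite σ] (z : σ → Option N) : Algebra.EssFiniteType F (fld F z) := by
  rw [IntermediateField.essFiniteType_iff]
  rw [fld_eq_range]
  exact IntermediateField.fg_adjoin_of_finite (Set.finite_range _)

open IntermediateField.algebraAdjoinAdjoin in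
/-- Two points with the same key have isomorphic fields. -/
theorem exists_hom_of_key {z : σ → Option N} {z' : σ → Option N'} (h : key F z = key F z') :
    ∃ φ : fld F z →ₐ[F] N', ∀ j, (restr F z j).map φ = z' j := by
  obtain ⟨h1, h2⟩ := (key_eq_iff z z').1 h
  set g : σ → N := fun j => (z j).getD 0 with hg
  set g' : σ → N' := fun j => (z' j).getD 0 with hg'
  -- the homomorphism on the subalgebra generated by the coordinates
  let A := Algebra.adjoin F (Set.range g)
  have hA : A = (MvPolynomial.aeval (R := F) g).range := Algebra.adjoin_range_eq_range_aeval F g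
  have h3 : ∀ a : A, ∃ P : MvPolynomial σ F, MvPolynomial.aeval g P = a := by
    intro a
    exact (hA ▸ a.2 : (a : N) ∈ (MvPolynomial.aeval (R := F) g).range)
  choose P hP using h3
  have hwd : ∀ (Q Q' : MvPolynomial σ F), MvPolynomial.aeval g Q = MvPolynomial.aeval g Q' →
      MvPolynomial.aeval g' Q = MvPolynomial.aeval g' Q' := by
    intro Q Q' hQ
    rw [← sub_eq_zero, ← map_sub] at hQ ⊢
    exact (h2 _).1 hQ
  let ψ : A →ₐ[F] N' :=
    { toFun := fun a => MvPolynomial.aeval g' (P a)
      map_one' := by
        rw [← map_one (MvPolynomial.aeval (R := F) g')]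
        exact hwd _ _ (by rw [hP, map_one]; rfl)
      map_mul' := fun a a' => by
        rw [← map_mul]
        exact hwd _ _ (by rw [hP, map_mul, hP, hP]; rfl)
      map_zero' := by
        rw [← map_zero (MvPolynomial.aeval (R := F) g')]
        exact hwd _ _ (by rw [hP, map_zero]; rfl)
      map_add' := fun a a' => by
        rw [← map_add]
        exact hwd _ _ (by rw [hP, map_add, hP, hP]; rfl)
      commutes' := fun c => by
        rw [← AlgHom.commutes (MvPolynomial.aeval (R := F) g') c]
        exact hwd _ _ (by rw [hP, AlgHom.commutes]; rfl) }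
  have hψ : ∀ Q : MvPolynomial σ F, ∀ a : A, MvPolynomial.aeval g Q = a →
      ψ a = MvPolynomial.aeval g' Q := fun Q a hQ => hwd _ _ (by rw [hP, hQ])
  have hinj : Function.Injective ψ := by
    rw [injective_iff_map_eq_zero]
    intro a ha
    have := (h2 (P a)).2 ha
    have h4 : (a : N) = 0 := by rw [← hP a]; exact this
    exact Subtype.ext h4
  have hfld : fld F z = IntermediateField.adjoin F (Set.range g) := fld_eq_range z
  let A' : Subalgebra F N := A
  have : IsFractionRing A (IntermediateField.adjoin F (Set.range g)) :=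
    inferInstanceAs (IsFractionRing (Algebra.adjoin F (Set.range g))
      (IntermediateField.adjoin F (Set.range g)))
  let Φ : IntermediateField.adjoin F (Set.range g) →ₐ[F] N' :=
    IsFractionRing.liftAlgHom (g := ψ) hinj
  refine ⟨Φ.comp (IntermediateField.equivOfEq hfld).toAlgHom, fun j => ?_⟩
  cases hj : z j with
  | none =>
    have e1 : restr F z j = none := by
      unfold restr
      simp only [Option.pmap_eq_none_iff]
      exact hj
    rw [e1, Option.map_none]
    exact ((h1 j).1 hj).symm
  | some a =>
    have e1 : restr F z j = some ⟨a, mem_fld hj⟩ := by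
      unfold restr
      simp only [Option.pmap_eq_some_iff]
      exact ⟨a, mem_fld hj, hj, rfl⟩
    rw [e1, Option.map_some]
    have hga : g j = a := by simp [hg, hj]
    have ha : a ∈ A := Algebra.subset_adjoin ⟨j, hga⟩
    have e2 : (Φ.comp (IntermediateField.equivOfEq hfld).toAlgHom) ⟨a, mem_fld hj⟩ =
        ψ ⟨a, ha⟩ := by
      have := IsFractionRing.lift_algebraMap (K := IntermediateField.adjoin F (Set.range g))
        (g := (ψ : A →+* N')) hinj ⟨a, ha⟩
      exact this
    have e3 : ψ ⟨a, ha⟩ = g' j := by
      rw [hψ (MvPolynomial.X j) ⟨a, ha⟩ (by rw [MvPolynomial.aeval_X, hga]),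
        MvPolynomial.aeval_X]
    rw [e2, e3]
    have hne : z' j ≠ none := fun h0 => by
      have := (h1 j).2 h0
      rw [hj] at this
      cases this
    obtain ⟨c, hc⟩ := Option.ne_none_iff_exists'.1 hne
    simp [hg', hc]

theorem trdeg_eq_of_key {z : σ → Option N} {z' : σ → Option N'} (h : key F z = key F z') :
    Algebra.trdeg F (fld F z) = Algebra.trdeg F (fld F z') := by
  obtain ⟨φ, hφ⟩ := exists_hom_of_key h
  have h1 := trdeg_fld_map φ (restr F z)
  rw [trdeg_fld_restr, show (fun j => (restr F z j).map φ) = z' from funext hφ] at h1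
  exact h1.symm

end gen

/-! ### Points of `X` -/

section X

variable {k : Type} [Field k] {p : ℕ} {n : ℕ} {b : Fin n → k}

theorem charP_ratFunc [CharP k p] : CharP (RatFunc k) p :=
  charP_of_injective_algebraMap (algebraMap k (RatFunc k)).injective p

theorem charP_alg [CharP k p] (N : Type) [Field N] [Algebra (RatFunc k) N] : CharP N p :=
  have := charP_ratFunc (k := k) (p := p)
  charP_of_injective_algebraMap (algebraMap (RatFunc k) N).injective p

theorem curve_map {N N' : Type} [Field N] [Field N'] (φ : N →+* N') (t c : N) (x y : Option N) :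
    Curve p (φ t) (φ c) (x.map φ) (y.map φ) ↔ Curve p t c x y := by
  unfold Curve
  constructor
  · rintro (⟨h1, h2⟩ | ⟨a, d, h1, h2, h3⟩)
    · left
      refine ⟨by simpa using h1, ?_⟩
      rcases h2 with h2 | h2
      · left; simpa using h2
      · right
        cases x with
        | none => simp at h2
        | some a =>
          simp only [Option.map_some, Option.some.injEq] at h2 ⊢
          exact (map_eq_zero φ).1 h2
    · right
      cases x with
      | none => simp at h1
      | some x =>
        cases y with
        | none => simp at h2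
        | some y =>
          simp only [Option.map_some, Option.some.injEq] at h1 h2
          subst h1 h2
          refine ⟨x, y, rfl, rfl, φ.injective ?_⟩
          simpa using h3
  · rintro (⟨h1, h2⟩ | ⟨a, d, h1, h2, h3⟩)
    · left
      subst h1
      refine ⟨rfl, ?_⟩
      rcases h2 with h2 | h2
      · left; simp [h2]
      · right; simp [h2]
    · right
      subst h1 h2
      refine ⟨φ a, φ d, rfl, rfl, ?_⟩
      rw [← map_pow, ← map_sub, ← map_mul, h3]
      simp

theorem XV_map {N N' : Type} [Field N] [Field N'] [Algebra (RatFunc k) N]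
    [Algebra (RatFunc k) N'] (φ : N →ₐ[RatFunc k] N') (z : Fin n ⊕ Fin n → Option N) :
    XV p b N' (fun j => (z j).map φ) ↔ XV p b N z := by
  unfold XV
  refine forall_congr' fun i => ?_
  have := curve_map (p := p) (φ : N →+* N') (algebraMap (RatFunc k) N RatFunc.X)
    (algebraMap (RatFunc k) N (RatFunc.C (b i))) (z (Sum.inl i)) (z (Sum.inr i))
  rw [← this]
  simp only [RingHom.coe_coe, AlgHom.commutes]

theorem XV_restr {N : Type} [Field N] [Algebra (RatFunc k) N] {z : Fin n ⊕ Fin n → Option N}
    (hz : XV p b N z) : XV p b (fld (RatFunc k) z) (restr (RatFunc k) z) := by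
  rw [← XV_map (fld (RatFunc k) z).val, restr_map]
  exact hz

/-- The two kinds of coordinates of a point of `X`. -/
theorem XV.cases {N : Type} [Field N] [Algebra (RatFunc k) N] {z : Fin n ⊕ Fin n → Option N}
    (hz : XV p b N z) (hb : ∀ i, b i ≠ 0) (i : Fin n) :
    (z (Sum.inr i) = none ∧ xc z i = 0 ∧ yc z i = 0) ∨
      (z (Sum.inl i) = some (xc z i) ∧ z (Sum.inr i) = some (yc z i) ∧ xc z i ≠ 0 ∧
        yc z i ^ p - yc z i = algebraMap (RatFunc k) N RatFunc.X * xc z i +
          algebraMap (RatFunc k) N (RatFunc.C (b i)) * (xc z i)⁻¹) := by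
  rcases hz i with ⟨h1, h2⟩ | ⟨a, c, h1, h2, h3⟩
  · left
    refine ⟨h1, ?_, by simp [yc, h1]⟩
    rcases h2 with h2 | h2 <;> simp [xc, h2]
  · right
    have e1 : xc z i = a := by simp [xc, h1]
    have e2 : yc z i = c := by simp [yc, h2]
    rw [e1, e2]
    have ha : a ≠ 0 := by
      rintro rfl
      rw [zero_mul, zero_pow two_ne_zero, mul_zero, zero_add] at h3
      have := (map_eq_zero (algebraMap (RatFunc k) N)).1 h3.symm
      rw [map_eq_zero] at this
      exact hb i this
    refine ⟨h1, h2, ha, ?_⟩
    have : a * (c ^ p - c) = a * (algebraMap (RatFunc k) N RatFunc.X * a +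
        algebraMap (RatFunc k) N (RatFunc.C (b i)) * a⁻¹) := by
      rw [h3]
      field_simp
    exact mul_left_cancel₀ ha this

theorem cast_pow_p [Fact p.Prime] {N : Type} [Field N] [CharP N p] (c : ZMod p) :
    (c.cast : N) ^ p = c.cast := by
  have h1 : (c.cast : N) = ZMod.castHom (dvd_refl p) N c := rfl
  rw [h1, ← map_pow, ZMod.pow_card]

/-- The Artin-Schreier equation of `e`. -/
theorem as_eq [Fact p.Prime] [CharP k p] {N : Type} [Field N] [Algebra (RatFunc k) N]
    {z : Fin n ⊕ Fin n → Option N} (hz : XV p b N z) (hb : ∀ i, b i ≠ 0) (ρ : Fin n → ZMod p) :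
    ec ρ z ^ p - ec ρ z = algebraMap (RatFunc k) N RatFunc.X * Xc ρ z + Bc b ρ z := by
  have := charP_alg (k := k) (p := p) N
  unfold ec Xc Bc
  rw [sum_pow_char p, ← Finset.sum_sub_distrib, Finset.mul_sum, ← Finset.sum_add_distrib]
  refine Finset.sum_congr rfl fun i _ => ?_
  rw [mul_pow, cast_pow_p, ← mul_sub]
  rcases hz.cases hb i with ⟨-, h2, h3⟩ | ⟨-, -, -, h⟩
  · rw [h2, h3, inv_zero, zero_pow (Fact.out : p.Prime).ne_zero]
    ring
  · rw [h]
    ring

end X

end Pool.Agent.Helper1.KL
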