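import Pool.Agent.Helper1.KL.St
import Pool.Agent.Helper33.KSZ.BoxEx

/-! Box, existence: Helper33/KSZ/BoxEx.lean adapted to the line 0.575 (box 57/100) by helper1 -/

set_option autoImplicit false
open Filter Topology Complex Metric

namespace Pool.Agent.Helper1.KL

open Pool.Agent.Helper33.KSZ
open Pool.Agent.Helper10.QRH Pool.Agent.Helper69.QRH

theorem boxExists : BoxExists := by
  intro T hT
  set U : Set ℂ := {z : ℂ | 57/100 < z.re ∧ |z.im| < T + 2} with hU
  have hUo : IsOpen U := by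
    refine IsOpen.inter (isOpen_lt continuous_const Complex.continuous_re) ?_
    exact isOpen_lt (continuous_abs.comp Complex.continuous_im) continuous_const
  have hUc : IsPreconnected U := by
    have h1 : U = {z : ℂ | 57/100 < z.re} ∩ ({z : ℂ | z.im < T + 2} ∩ {z : ℂ | -(T + 2) < z.im}) := by
      ext z
      simp only [hU, Set.mem_ofPred_eq, Set.mem_inter_iff, abs_lt]
      tauto
    rw [h1]
    exact ((convex_halfSpace_re_gt _).inter
      ((convex_halfSpace_im_lt _).inter (convex_halfSpace_im_gt _))).isPreconnected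
  have hzero : ∀ z : ℂ, EZ z = 0 → riemannZeta z = 0 ∧ z.re < 1 := by
    intro z hz
    have h1 : z ≠ 1 := by
      rintro rfl
      rw [EZ_one] at hz
      exact one_ne_zero hz
    rw [EZ_eq h1] at hz
    have h2 := (mul_eq_zero.1 hz).resolve_left (sub_ne_zero.2 h1)
    refine ⟨h2, ?_⟩
    by_contra h3
    exact riemannZeta_ne_zero_of_one_le_re (not_lt.1 h3) h2
  have hfin : {z : ℂ | z ∈ U ∧ EZ z = 0}.Finite := by
    have h1 := zeros_finite (s₀ := 0) (R := T + 10) (r := T + 4) (by linarith) (F := EZ)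
      EZ_differentiable.differentiableOn
      ⟨1, by rw [mem_ball_zero_iff, norm_one]; linarith, by rw [EZ_one]; exact one_ne_zero⟩
    refine h1.subset fun z hz => ⟨?_, hz.2⟩
    rw [mem_closedBall_zero_iff]
    have h2 := (hzero z hz.2).2
    have h3 : 57 / 100 < z.re := hz.1.1
    have h4 : |z.im| < T + 2 := hz.1.2
    refine (Complex.norm_le_abs_re_add_abs_im z).trans ?_
    rw [abs_of_pos (by linarith : 0 < z.re)]
    linarith
  obtain ⟨M, Z, hZ, hZ0, hM, hfac⟩ := factorFinite EZ EZ_differentiable U hUo hUc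
    ⟨1, ⟨by norm_num, by simp only [Complex.one_im, abs_zero]; linarith⟩,
      by rw [EZ_one]; exact one_ne_zero⟩ hfin
  refine ⟨M, Z, hZ, hfac, ?_, fun z h1 h2 => hZ0 z ⟨h1, h2⟩, ?_⟩
  · intro ρ hρ
    obtain ⟨h1, h2⟩ := hM ρ hρ
    obtain ⟨h3, h4⟩ := hzero ρ h2
    exact ⟨h3, h1.1, h4, h1.2⟩
  · intro ρ hρ h1 h2
    have h3 : ρ ≠ 1 := by
      rintro rfl
      exact riemannZeta_one_ne_zero hρ
    rw [← orderNat_EZ h3]
    have h4 := count_eq_order hZ hfac (hZ0 ρ ⟨h1, h2⟩)
    convert h4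

end Pool.Agent.Helper1.KL
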