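import Pool.Agent.Helper1.KL.St
import Pool.Agent.Helper67.KSZ.E4

/-! Helper67/KSZ/E4.lean adapted to the line 0.575 (box 57/100) by helper1 -/

set_option autoImplicit false
open Filter Topology MeasureTheory Complex
open scoped Classical

namespace Pool.Agent.Helper1.KL

open Pool.Agent.Helper67.KSZ.E4 hiding fiber_card cardBox farSum
open Pool.Agent.Helper10.QRH Pool.Agent.Helper69.QRH 

/-- the fibres are small -/
theorem fiber_card (h : JensenEZ) : ∃ C : ℝ, 0 < C ∧ ∀ (T : ℝ) (M : Multiset ℂ) (Z : ℂ → ℂ), 1 ≤ T →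
    Box T M Z → ∀ (N : Multiset ℂ), N ≤ M → ∀ m : ℤ,
    (Multiset.card (N.filter (fun ρ => rr ρ = m)) : ℝ) ≤ C * Real.log (|(m : ℝ) / 4| + 2) := by
  obtain ⟨C, hC, hJ⟩ := h
  refine ⟨C, hC, ?_⟩
  intro T M Z hT hB N hNM m
  have h1 : Multiset.card (N.filter (fun ρ => rr ρ = m)) ≤
      Multiset.card (M.filter (fun ρ => rr ρ = m)) :=
    Multiset.card_le_card (Multiset.filter_le_filter _ hNM)
  have h2 := hJ (M.filter (fun ρ => rr ρ = m))
    (fun z => Qp (M.filter (fun ρ => ¬ rr ρ = m)) z * Z z)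
    ((Qp_differentiable _).mul hB.diff) (fun z => by
      rw [hB.eq z, ← mul_assoc, ← Qp_add, Multiset.filter_add_not]) ((m : ℝ) / 4) (by
      intro ρ hρ
      have hρM := Multiset.mem_filter.1 hρ
      obtain ⟨_, h3, h4, _⟩ := hB.mem ρ hρM.1
      have h5 := rr_spec ρ
      rw [hρM.2] at h5
      have h6 := abs_le.1 h5
      have e1 : (ρ - (2 + (((m : ℝ) / 4 : ℝ) : ℂ) * Complex.I)).re = ρ.re - 2 := by simp
      have e2 : (ρ - (2 + (((m : ℝ) / 4 : ℝ) : ℂ) * Complex.I)).im = ρ.im - (m : ℝ) / 4 := by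
        simp only [Complex.sub_im, Complex.add_im, Complex.mul_im, Complex.ofReal_re,
          Complex.I_im, mul_one, Complex.ofReal_im, Complex.I_re, mul_zero, add_zero]
        simp
      have e3 : ‖ρ - (2 + (((m : ℝ) / 4 : ℝ) : ℂ) * Complex.I)‖ ^ 2 ≤ 1.45 ^ 2 := by
        rw [Complex.sq_norm, Complex.normSq_apply, e1, e2]
        nlinarith
      exact le_of_sq_le_sq e3 (by norm_num))
  exact (by exact_mod_cast h1 : (Multiset.card (N.filter (fun ρ => rr ρ = m)) : ℝ) ≤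
    (Multiset.card (M.filter (fun ρ => rr ρ = m)) : ℝ)).trans h2

theorem cardBox (h : JensenEZ) : CardBox := by
  obtain ⟨C, hC, hF⟩ := fiber_card h
  refine ⟨C * 2 * 40, by positivity, ?_⟩
  intro T M Z hT hB
  set I := Finset.Icc (-(⌈4 * (T + 2)⌉ + 1)) (⌈4 * (T + 2)⌉ + 1) with hI
  have h1 := sum_fibers I rr (fun _ => (1 : ℝ)) M (fun ρ hρ => rr_mem (hB.mem ρ hρ).2.2.2)
  have h2 : (M.map (fun _ => (1 : ℝ))).sum = Multiset.card M := by simp
  rw [h2] at h1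
  rw [h1]
  have h3 : ∀ m ∈ I, ((M.filter (fun ρ => rr ρ = m)).map (fun _ => (1 : ℝ))).sum ≤
      C * (2 * Real.log (T + 2)) := by
    intro m hm
    have : ((M.filter (fun ρ => rr ρ = m)).map (fun _ => (1 : ℝ))).sum =
        Multiset.card (M.filter (fun ρ => rr ρ = m)) := by simp
    rw [this]
    refine (hF T M Z hT hB M le_rfl m).trans ?_
    gcongr
    exact log_m hT hm
  refine (Finset.sum_le_card_nsmul _ _ _ h3).trans ?_
  have h4 : (I.card : ℝ) ≤ 40 * T := by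
    rw [hI, Int.card_Icc]
    have h5 := Int.ceil_lt_add_one (4 * (T + 2))
    have h6 : (0 : ℝ) ≤ ⌈4 * (T + 2)⌉ := by exact_mod_cast Int.ceil_nonneg (by linarith)
    have h6' : (0 : ℤ) ≤ ⌈4 * (T + 2)⌉ := Int.ceil_nonneg (by linarith)
    have h7 : (((⌈4 * (T + 2)⌉ + 1 + 1 - -(⌈4 * (T + 2)⌉ + 1)).toNat : ℕ) : ℤ) =
        ⌈4 * (T + 2)⌉ + 1 + 1 - -(⌈4 * (T + 2)⌉ + 1) := Int.toNat_of_nonneg (by linarith)
    have h8 : (((⌈4 * (T + 2)⌉ + 1 + 1 - -(⌈4 * (T + 2)⌉ + 1)).toNat : ℕ) : ℝ) =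
        ((⌈4 * (T + 2)⌉ + 1 + 1 - -(⌈4 * (T + 2)⌉ + 1) : ℤ) : ℝ) := by exact_mod_cast h7
    rw [h8]
    push_cast
    linarith
  rw [nsmul_eq_mul]
  have hl := log_facts hT
  have h5 : (0 : ℝ) ≤ C * (2 * Real.log (T + 2)) := by positivity
  calc (I.card : ℝ) * (C * (2 * Real.log (T + 2))) ≤ 40 * T * (C * (2 * Real.log (T + 2))) := by
        gcongr
    _ = _ := by ring

theorem farSum (h : JensenEZ) : FarSum := by
  obtain ⟨C, hC, hF⟩ := fiber_card h
  refine ⟨C * 2 * 1670 * 4 * 5, by positivity, ?_⟩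
  intro T M Z hT hB N hNM s hs
  have hl := log_facts hT
  set J : ℕ := (⌈4 * (T + 2)⌉ + 1).toNat with hJ
  have hcn : (0 : ℤ) ≤ ⌈4 * (T + 2)⌉ := Int.ceil_nonneg (by linarith)
  have hJZ : (J : ℤ) = ⌈4 * (T + 2)⌉ + 1 := Int.toNat_of_nonneg (by linarith)
  have hI : ∀ ρ ∈ N, rr ρ ∈ Finset.Icc (-(J : ℤ)) J := by
    intro ρ hρ
    rw [hJZ]
    exact rr_mem (hB.mem ρ (Multiset.mem_of_le hNM hρ)).2.2.2
  rw [sum_fibers _ rr _ N hI]
  set x : ℝ := 4 * s.im with hx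
  have h1 : ∀ m ∈ Finset.Icc (-(J : ℤ)) J,
      ((N.filter (fun ρ => rr ρ = m)).map (fun ρ => 1 / ‖s - ρ‖)).sum ≤
      C * (2 * Real.log (T + 2)) * (1670 * (1 / (1 + |x - m|))) := by
    intro m hm
    have h2 : ∀ y ∈ (N.filter (fun ρ => rr ρ = m)).map (fun ρ => 1 / ‖s - ρ‖),
        y ≤ 1670 * (1 / (1 + |x - m|)) := by
      intro y hy
      obtain ⟨ρ, hρ, rfl⟩ := Multiset.mem_map.1 hy
      have hρ' := Multiset.mem_filter.1 hρ
      have h3 := hs ρ hρ'.1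
      have h4 := rr_spec ρ
      rw [hρ'.2] at h4
      have h5 : |s.im - ρ.im| ≤ ‖s - ρ‖ := by
        have := Complex.abs_im_le_norm (s - ρ)
        simpa using this
      have hpos : 0 < ‖s - ρ‖ := by linarith
      have hax := abs_nonneg (x - m)
      rw [mul_one_div, div_le_div_iff₀ hpos (by linarith)]
      have h6 : |x - m| ≤ 4 * |s.im - ρ.im| + 1 / 2 := by
        have e : x - m = 4 * (s.im - ρ.im) + 4 * (ρ.im - (m : ℝ) / 4) := by rw [hx]; ring
        rw [e]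
        refine (abs_add_le _ _).trans ?_
        rw [abs_mul, abs_mul, abs_of_pos (show (0 : ℝ) < 4 by norm_num)]
        linarith
      linarith
    have h3 := Multiset.sum_le_card_nsmul _ _ h2
    rw [Multiset.card_map, nsmul_eq_mul] at h3
    refine h3.trans ?_
    have h4 := (hF T M Z hT hB N hNM m).trans
      (mul_le_mul_of_nonneg_left (log_m hT (by rw [← hJZ]; exact hm)) hC.le)
    have hax := abs_nonneg (x - m)
    gcongr
  refine (Finset.sum_le_sum h1).trans ?_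
  rw [← Finset.mul_sum, ← Finset.mul_sum]
  have h2 := sum_real_le J x
  have h3 : Real.log (2 * J + 1) ≤ 4 * Real.log (T + 2) := by
    have hJr : (J : ℝ) ≤ 4 * (T + 2) + 2 := by
      have e : (J : ℝ) = ((⌈4 * (T + 2)⌉ + 1 : ℤ) : ℝ) := by exact_mod_cast hJZ
      have := Int.ceil_lt_add_one (4 * (T + 2))
      rw [e]
      push_cast
      linarith
    have h5 : 2 * (J : ℝ) + 1 ≤ (T + 2) ^ 4 := by
      have h6 : 2 * (J : ℝ) + 1 ≤ 8 * (T + 2) + 5 := by linarith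
      have h7 : 9 ≤ (T + 2) ^ 2 := by nlinarith
      have h8 : 9 * (T + 2) ^ 2 ≤ (T + 2) ^ 4 := by nlinarith [sq_nonneg (T + 2)]
      nlinarith
    have h6 := Real.log_le_log (by positivity) h5
    rw [Real.log_pow] at h6
    exact_mod_cast h6
  have h4 : ∑ m ∈ Finset.Icc (-(J : ℤ)) J, (1 : ℝ) / (1 + |x - m|) ≤ 4 * 5 * Real.log (T + 2) := by
    linarith
  calc C * (2 * Real.log (T + 2)) * (1670 * ∑ m ∈ Finset.Icc (-(J : ℤ)) J, (1 : ℝ) / (1 + |x - m|))
      ≤ C * (2 * Real.log (T + 2)) * (1670 * (4 * 5 * Real.log (T + 2))) := by gcongr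
    _ = _ := by ring

end Pool.Agent.Helper1.KL
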