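import Pool.Agent.Helper1.KL.St
import Pool.Agent.Helper8.KSZ.Shift

/-! Helper8/KSZ/Shift.lean adapted to the line 0.575 (box 57/100) by helper1 -/

set_option autoImplicit false
open Filter Topology MeasureTheory

namespace Pool.Agent.Helper1.KL

open Pool.Agent.Helper8.KSZ (tail_Ioi tail_Iic tail_bound line_re line_im)
open Pool.Agent.Helper10.QRH Pool.Agent.Helper69.QRH 

theorem shift (hK : KFacts) (hG : GBound) (h6 : LineTwo) : Shift := by
  obtain ⟨CK0, hCK0⟩ := hK.bound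
  obtain ⟨CG, hCG0, hCG⟩ := hG
  set CK : ℝ := |CK0| + 1 with hCKd
  have hCK1 : 0 < CK := by positivity
  refine ⟨CK * CG + 1, by positivity, ?_⟩
  intro T M Z hT hB lam u hl hl1 hu
  obtain ⟨hG1, hG2⟩ := hCG T M Z hT hB
  obtain ⟨hi, he⟩ := h6 T M Z hT hB lam u hl hl1 hu
  have hT0 : 0 < T := by linarith
  set L : ℝ := Real.log (T + 2) with hL
  have hL0 : 0 ≤ L := Real.log_nonneg (by linarith)
  set J : ℂ → ℂ := fun s => KK lam s * (-logDeriv Z s) * Complex.exp (s * u) with hJ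
  have hZd : ∀ s : ℂ, 57/100 < s.re → |s.im| < T + 2 → DifferentiableAt ℂ (logDeriv Z) s := by
    intro s hs1 hs2
    have h1 : DifferentiableAt ℂ (deriv Z) s :=
      (hB.diff.deriv s)
    exact h1.div (hB.diff s) (hB.ne s hs1 hs2)
  have hJd : ∀ s : ℂ, 57/100 < s.re → |s.im| < T + 2 → DifferentiableAt ℂ J s := by
    intro s hs1 hs2
    refine ((hK.diff lam hl s).mul (hZd s hs1 hs2).neg).mul ?_
    fun_prop
  -- bound
  set B : ℝ := CK * CG * Real.exp (2 * u) * L ^ 2 / lam ^ 2 with hBd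
  have hB0 : 0 ≤ B := by positivity
  have hJb : ∀ s : ℂ, 0.575 ≤ s.re → s.re ≤ 2 → s.im ≠ 0 → ‖logDeriv Z s‖ ≤ CG * L ^ 2 →
      ‖J s‖ ≤ B / s.im ^ 2 := by
    intro s hs1 hs2 hs3 hs4
    have b1 := hCK0 lam hl hl1 s (by linarith) hs2
    have hp : (0 : ℝ) < (lam * s.im) ^ 2 := by positivity
    have b1' : ‖KK lam s‖ ≤ CK / (lam * s.im) ^ 2 := by
      refine b1.trans ?_
      refine (div_le_div_of_nonneg_right ((le_abs_self CK0).trans (by linarith : |CK0| ≤ CK))
        (by positivity)).trans ?_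
      exact div_le_div_of_nonneg_left hCK1.le hp (by linarith)
    have b3 : ‖Complex.exp (s * u)‖ ≤ Real.exp (2 * u) := by
      rw [Complex.norm_exp]
      apply Real.exp_le_exp.2
      simp only [Complex.mul_re, Complex.ofReal_re, Complex.ofReal_im, mul_zero, sub_zero]
      nlinarith
    calc ‖J s‖ = ‖KK lam s‖ * ‖logDeriv Z s‖ * ‖Complex.exp (s * u)‖ := by
          simp only [hJ, norm_mul, norm_neg]
      _ ≤ (CK / (lam * s.im) ^ 2) * (CG * L ^ 2) * Real.exp (2 * u) := by gcongr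
      _ = B / s.im ^ 2 := by
          rw [hBd]
          field_simp
  -- tail
  have htail := tail_bound hi hT0 (C := B) (by
    intro t ht
    have ht0 : t ≠ 0 := by
      rintro rfl
      rw [abs_zero] at ht
      linarith
    have := hJb ((2 : ℝ) + t * Complex.I) (by rw [line_re]; norm_num) (by rw [line_re])
      (by rwa [line_im]) (by
        have := hG2 t
        push_cast
        exact this)
    rwa [line_im] at this)
  -- rectangle
  have hrect : (∫ x : ℝ in (0.575 : ℝ)..2, J (x + ((-T : ℝ) : ℂ) * Complex.I)) -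
        (∫ x : ℝ in (0.575 : ℝ)..2, J (x + (T : ℂ) * Complex.I)) +
        Complex.I * (∫ y : ℝ in (-T)..T, J ((2 : ℝ) + y * Complex.I)) -
        Complex.I * (∫ y : ℝ in (-T)..T, J ((0.575 : ℝ) + y * Complex.I)) = 0 := by
    have := Complex.integral_boundary_rect_eq_zero_of_differentiableOn J
        ((0.575 : ℝ) + ((-T : ℝ) : ℂ) * Complex.I) ((2 : ℝ) + (T : ℂ) * Complex.I) (by
      intro s hs
      rw [Complex.mem_reProdIm] at hs
      simp only [line_re, line_im] at hs
      obtain ⟨h2, h3⟩ := hs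
      rw [Set.uIcc_of_le (by norm_num)] at h2
      rw [Set.uIcc_of_le (by linarith)] at h3
      apply (hJd s (by linarith [h2.1, show (57 / 100 : ℝ) < 0.575 by norm_num]) ?_).differentiableWithinAt
      rw [abs_lt]
      constructor <;> linarith [h3.1, h3.2])
    simpa only [line_re, line_im, smul_eq_mul] using this
  have hhor : ∀ τ : ℝ, |τ| = T → ‖∫ x : ℝ in (0.575 : ℝ)..2, J (x + (τ : ℂ) * Complex.I)‖ ≤
      2 * (B / T) := by
    intro τ hτ
    have hτ0 : τ ≠ 0 := by
      rintro rfl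
      rw [abs_zero] at hτ
      linarith
    have h1 := intervalIntegral.norm_integral_le_of_norm_le_const
      (a := (0.575 : ℝ)) (b := 2) (C := B / T ^ 2)
      (f := fun x : ℝ => J (x + (τ : ℂ) * Complex.I)) (by
        intro x hx
        rw [Set.uIoc_of_le (by norm_num)] at hx
        have := hJb (x + (τ : ℂ) * Complex.I) (by rw [line_re]; exact hx.1.le)
          (by rw [line_re]; exact hx.2) (by rwa [line_im]) (hG1 _ (by rw [line_re]; exact hx.1.le)
          (by rw [line_re]; exact hx.2) (by rw [line_im, hτ]))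
        rw [line_im, ← sq_abs, hτ] at this
        exact this)
    refine h1.trans ?_
    have h2 : |(2 : ℝ) - 0.575| ≤ 2 := by norm_num
    have h3 : B / T ^ 2 ≤ B / T := by
      apply div_le_div_of_nonneg_left hB0 hT0
      nlinarith
    calc B / T ^ 2 * |(2 : ℝ) - 0.575| ≤ (B / T) * 2 := by
          apply mul_le_mul h3 h2 (abs_nonneg _) (by positivity)
      _ = 2 * (B / T) := by ring
  have h1 := hhor (-T) (by rw [abs_neg, abs_of_pos hT0])
  have h2 := hhor T (abs_of_pos hT0)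
  -- difference of the vertical sides
  have hver : ‖(∫ y : ℝ in (-T)..T, J ((2 : ℝ) + y * Complex.I)) -
      (∫ y : ℝ in (-T)..T, J ((0.575 : ℝ) + y * Complex.I))‖ ≤ 4 * (B / T) := by
    have h3 : Complex.I * ((∫ y : ℝ in (-T)..T, J ((2 : ℝ) + y * Complex.I)) -
      (∫ y : ℝ in (-T)..T, J ((0.575 : ℝ) + y * Complex.I))) =
      (∫ x : ℝ in (0.575 : ℝ)..2, J (x + (T : ℂ) * Complex.I)) -
      (∫ x : ℝ in (0.575 : ℝ)..2, J (x + ((-T : ℝ) : ℂ) * Complex.I)) := by
      linear_combination hrect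
    have h4 : ‖Complex.I * ((∫ y : ℝ in (-T)..T, J ((2 : ℝ) + y * Complex.I)) -
      (∫ y : ℝ in (-T)..T, J ((0.575 : ℝ) + y * Complex.I)))‖ ≤ 4 * (B / T) := by
      rw [h3]
      refine (norm_sub_le _ _).trans ?_
      linarith
    rwa [norm_mul, Complex.norm_I, one_mul] at h4
  have hline : line 1 lam T Z u = (1 / (2 * Real.pi)) *
      ∫ y : ℝ in (-T)..T, J ((0.575 : ℝ) + y * Complex.I) := by
    unfold line
    simp only [hJ, pow_one]
  rw [he, hline, ← mul_sub]
  have h5 : ‖(∫ t : ℝ, KK lam ((2 : ℝ) + t * Complex.I) *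
      (-logDeriv Z ((2 : ℝ) + t * Complex.I)) * Complex.exp (((2 : ℝ) + t * Complex.I) * u)) -
      ∫ y : ℝ in (-T)..T, J ((0.575 : ℝ) + y * Complex.I)‖ ≤ 6 * (B / T) := by
    have h6 : (∫ t : ℝ, KK lam ((2 : ℝ) + t * Complex.I) *
      (-logDeriv Z ((2 : ℝ) + t * Complex.I)) * Complex.exp (((2 : ℝ) + t * Complex.I) * u)) -
      (∫ y : ℝ in (-T)..T, J ((0.575 : ℝ) + y * Complex.I)) =
      ((∫ t : ℝ, KK lam ((2 : ℝ) + t * Complex.I) *
      (-logDeriv Z ((2 : ℝ) + t * Complex.I)) * Complex.exp (((2 : ℝ) + t * Complex.I) * u)) -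
      ∫ y : ℝ in (-T)..T, J ((2 : ℝ) + y * Complex.I)) +
      ((∫ y : ℝ in (-T)..T, J ((2 : ℝ) + y * Complex.I)) -
      (∫ y : ℝ in (-T)..T, J ((0.575 : ℝ) + y * Complex.I))) := by ring
    rw [h6]
    refine (norm_add_le _ _).trans ?_
    linarith
  rw [norm_mul]
  have h7 : ‖(1 / (2 * Real.pi) : ℂ)‖ ≤ 1 / 6 := by
    rw [norm_div, norm_one, norm_mul, Complex.norm_real, Real.norm_of_nonneg Real.pi_pos.le]
    simp only [Complex.norm_ofNat]
    apply div_le_div_of_nonneg_left (by norm_num) (by norm_num)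
    linarith [Real.pi_gt_three]
  calc ‖(1 / (2 * Real.pi) : ℂ)‖ * _ ≤ 1 / 6 * (6 * (B / T)) := by
        apply mul_le_mul h7 h5 (norm_nonneg _) (by norm_num)
    _ = CK * CG * Real.exp (2 * u) * L ^ 2 / (lam ^ 2 * T) := by
        rw [hBd]
        field_simp
    _ ≤ (CK * CG + 1) * Real.exp (2 * u) * L ^ 2 / (lam ^ 2 * T) := by
        gcongr
        linarith

end Pool.Agent.Helper1.KL
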