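import Pool.Agent.Helper1.KL.St
import Pool.Agent.Helper8.KSZ.ShiftIter

/-! Helper8/KSZ/ShiftIter.lean adapted to the line 0.575 (box 57/100) by helper1 -/

set_option autoImplicit false
open Filter Topology MeasureTheory

namespace Pool.Agent.Helper1.KL

open Pool.Agent.Helper8.KSZ.Iter hiding step
open Pool.Agent.Helper10.QRH Pool.Agent.Helper69.QRH
open Pool.Agent.Helper79.QRH (tri_cont tri_zero tri_nonneg tri_le KK_eq KK_cont
  integral_eq_interval)

theorem step (hK : KFacts) (h8 : KerFacts) {C T : ℝ} (hT : 1 ≤ T) (hC : 0 < C) {M : Multiset ℂ}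
    {Z : ℂ → ℂ} (hB : Box T M Z) {lam : ℝ} (hl : 0 < lam) {j : ℕ}
    (ih : ∀ u : ℝ, 1 + j * lam ≤ u → ‖lhs (ker lam j) (j + 1) lam M u - line (j + 1) lam T Z u‖ ≤
      C * Real.exp (2 * (u + j * lam)) * (Real.log (T + 2)) ^ 2 / (lam ^ 2 * T))
    {u : ℝ} (hu : 1 + ((j + 1 : ℕ) : ℝ) * lam ≤ u) :
    ‖lhs (ker lam (j + 1)) (j + 1 + 1) lam M u - line (j + 1 + 1) lam T Z u‖ ≤
      C * Real.exp (2 * (u + ((j + 1 : ℕ) : ℝ) * lam)) * (Real.log (T + 2)) ^ 2 /
        (lam ^ 2 * T) := by
  obtain ⟨hkc, -, -, hkz⟩ := h8 lam hl j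
  obtain ⟨-, -, -, hkz'⟩ := h8 lam hl (j + 1)
  have hT0 : 0 < T := by linarith
  -- finite sums
  set N : ℕ := ⌈Real.exp (u + ((j : ℝ) + 2) * lam)⌉₊ with hN
  have hN1 : 1 ≤ N := Nat.one_le_iff_ne_zero.2 (Nat.ceil_pos.2 (Real.exp_pos _)).ne'
  have hNl : u + ((j : ℝ) + 2) * lam ≤ Real.log N := by
    rw [Real.le_log_iff_exp_le (by exact_mod_cast hN1)]
    exact Nat.le_ceil _
  have hs1 : ∀ w : ℝ, |w| ≤ lam → (∑' n : ℕ, ArithmeticFunction.vonMangoldt n *
      ker lam j ((u - w) - Real.log n)) = ∑ n ∈ Finset.range N,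
      ArithmeticFunction.vonMangoldt n * ker lam j ((u - w) - Real.log n) := by
    intro w hw
    apply tsum_eq (R := ((j : ℝ) + 1) * lam) hkz hN1
    have := (abs_le.1 hw).1
    linarith
  have hs2 : (∑' n : ℕ, ArithmeticFunction.vonMangoldt n *
      ker lam (j + 1) (u - Real.log n)) = ∑ n ∈ Finset.range N,
      ArithmeticFunction.vonMangoldt n * ker lam (j + 1) (u - Real.log n) := by
    apply tsum_eq (R := (((j + 1 : ℕ) : ℝ) + 1) * lam) hkz' hN1
    push_cast
    linarith
  -- the line
  have hGc : ContinuousOn (fun t : ℝ => KK lam ((0.575 : ℝ) + t * Complex.I) ^ (j + 1) *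
      (-logDeriv Z ((0.575 : ℝ) + t * Complex.I))) (Set.Icc (-T) T) := by
    have h1 : Continuous (fun t : ℝ => KK lam ((0.575 : ℝ) + t * Complex.I)) :=
      (KK_cont hl).comp (by fun_prop)
    refine (h1.pow _).continuousOn.mul (ContinuousOn.neg ?_)
    intro t ht
    apply ContinuousAt.continuousWithinAt
    have hne : Z ((0.575 : ℝ) + t * Complex.I) ≠ 0 := by
      apply hB.ne
      · simp only [Complex.add_re, Complex.ofReal_re, Complex.mul_re, Complex.I_re, mul_zero,
          Complex.ofReal_im, Complex.I_im, mul_one, sub_self, add_zero]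
        norm_num
      · simp only [Complex.add_im, Complex.ofReal_im, Complex.mul_im, Complex.ofReal_re,
          Complex.I_im, mul_one, Complex.I_re, mul_zero, add_zero, zero_add]
        rw [abs_lt]
        constructor <;> linarith [ht.1, ht.2]
    have h2 : ContinuousAt (logDeriv Z) ((0.575 : ℝ) + t * Complex.I) := by
      have h3 : DifferentiableAt ℂ (deriv Z) ((0.575 : ℝ) + t * Complex.I) := hB.diff.deriv _
      exact (h3.div (hB.diff _) hne).continuousAt
    exact ContinuousAt.comp (f := fun t : ℝ => ((0.575 : ℝ) : ℂ) + t * Complex.I) h2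
      (by fun_prop)
  obtain ⟨G, hG, hGe⟩ := exists_ext hT0.le hGc
  have hline : ∀ v : ℝ, line (j + 1) lam T Z v = (1 / (2 * Real.pi)) * ∫ t in (-T)..T, G t *
      Complex.exp ((((0.575 : ℝ) : ℂ) + t * Complex.I) * v) := by
    intro v
    unfold line
    congr 1
    apply intervalIntegral.integral_congr
    intro t ht
    rw [Set.uIcc_of_le (by linarith)] at ht
    beta_reduce
    rw [hGe t ht]
  have hline' : ∀ v : ℝ, line (j + 1 + 1) lam T Z v = (1 / (2 * Real.pi)) * ∫ t in (-T)..T,
      (G t * KK lam ((0.575 : ℝ) + t * Complex.I)) *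
      Complex.exp ((((0.575 : ℝ) : ℂ) + t * Complex.I) * v) := by
    intro v
    unfold line
    congr 1
    apply intervalIntegral.integral_congr
    intro t ht
    rw [Set.uIcc_of_le (by linarith)] at ht
    beta_reduce
    rw [hGe t ht]
    ring
  -- the four pieces
  have htc := triC_cont lam
  have i1 := avg_fsum (K' := ker lam (j + 1)) hl hkc (fun v => rfl) N u
  have i2 := avg_exp hl 1 u
  have i3 := avg_msum hl M (fun ρ => KK lam ρ ^ (j + 1)) u
  have i4 := avg_lint hl hG (0.575 : ℝ) T u
  have c1 : Continuous (fun w : ℝ => (tri lam w : ℂ) * ((∑ n ∈ Finset.range N,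
      ArithmeticFunction.vonMangoldt n * ker lam j ((u - w) - Real.log n) : ℝ) : ℂ)) := by
    have h1 := (fsum_cont hkc N).comp (by fun_prop : Continuous (fun w : ℝ => u - w))
    exact htc.mul (Complex.continuous_ofReal.comp h1)
  have c2 : Continuous (fun w : ℝ => (tri lam w : ℂ) * Complex.exp (1 * ((u - w : ℝ) : ℂ))) := by
    fun_prop
  have c3 : Continuous (fun w : ℝ => (tri lam w : ℂ) * (M.map (fun ρ =>
      Complex.exp (ρ * ((u - w : ℝ) : ℂ)) * KK lam ρ ^ (j + 1))).sum) := by
    have h1 := (msum_cont M (fun ρ => KK lam ρ ^ (j + 1))).comp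
      (by fun_prop : Continuous (fun w : ℝ => u - w))
    exact htc.mul h1
  have c4 : Continuous (fun w : ℝ => (tri lam w : ℂ) * (∫ t in (-T)..T, G t *
      Complex.exp ((((0.575 : ℝ) : ℂ) + t * Complex.I) * ((u - w : ℝ) : ℂ)))) := by
    have h1 := (lint_cont hG (0.575 : ℝ) T).comp (by fun_prop : Continuous (fun w : ℝ => u - w))
    exact htc.mul h1
  have key : lhs (ker lam (j + 1)) (j + 1 + 1) lam M u - line (j + 1 + 1) lam T Z u =
      ∫ w in (-lam)..lam, (tri lam w : ℂ) *
        (lhs (ker lam j) (j + 1) lam M (u - w) - line (j + 1) lam T Z (u - w)) := by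
    have e1 : ∫ w in (-lam)..lam, (tri lam w : ℂ) *
        (lhs (ker lam j) (j + 1) lam M (u - w) - line (j + 1) lam T Z (u - w)) =
        ∫ w in (-lam)..lam, ((((tri lam w : ℂ) * ((∑ n ∈ Finset.range N,
      ArithmeticFunction.vonMangoldt n * ker lam j ((u - w) - Real.log n) : ℝ) : ℂ)) -
        ((tri lam w : ℂ) * Complex.exp (1 * ((u - w : ℝ) : ℂ))) * KK lam 1 ^ (j + 1)) +
        (tri lam w : ℂ) * (M.map (fun ρ =>
      Complex.exp (ρ * ((u - w : ℝ) : ℂ)) * KK lam ρ ^ (j + 1))).sum) -
        (1 / (2 * Real.pi)) * ((tri lam w : ℂ) * (∫ t in (-T)..T, G t *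
      Complex.exp ((((0.575 : ℝ) : ℂ) + t * Complex.I) * ((u - w : ℝ) : ℂ)))) := by
      apply intervalIntegral.integral_congr
      intro w hw
      rw [Set.uIcc_of_le (by linarith)] at hw
      beta_reduce
      rw [hline]
      unfold lhs
      rw [hs1 w (abs_le.2 hw), one_mul]
      ring
    rw [e1, intervalIntegral.integral_sub, intervalIntegral.integral_add,
      intervalIntegral.integral_sub, intervalIntegral.integral_mul_const,
      intervalIntegral.integral_const_mul, i1, i2, i3, i4, hline']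
    · unfold lhs
      rw [hs2]
      simp only [one_mul, ← pow_succ]
      ring
    · exact c1.intervalIntegrable _ _
    · exact (c2.mul continuous_const).intervalIntegrable _ _
    · exact (c1.sub (c2.mul continuous_const)).intervalIntegrable _ _
    · exact c3.intervalIntegrable _ _
    · exact ((c1.sub (c2.mul continuous_const)).add c3).intervalIntegrable _ _
    · exact (continuous_const.mul c4).intervalIntegrable _ _
  rw [key]
  set B : ℝ := C * Real.exp (2 * (u + ((j + 1 : ℕ) : ℝ) * lam)) * (Real.log (T + 2)) ^ 2 /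
        (lam ^ 2 * T) with hBd
  have hb : ‖∫ w in (-lam)..lam, (tri lam w : ℂ) *
        (lhs (ker lam j) (j + 1) lam M (u - w) - line (j + 1) lam T Z (u - w))‖ ≤
      ∫ w in (-lam)..lam, tri lam w * B := by
    apply intervalIntegral.norm_integral_le_of_norm_le (by linarith)
    · refine Filter.Eventually.of_forall ?_
      intro w hw
      have hw' : |w| ≤ lam := abs_le.2 ⟨hw.1.le, hw.2⟩
      rw [norm_mul, Complex.norm_real, Real.norm_of_nonneg (tri_nonneg hl)]
      apply mul_le_mul_of_nonneg_left _ (tri_nonneg hl)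
      push_cast at hu
      refine (ih (u - w) ?_).trans ?_
      · linarith [hw.2]
      · have hexp : Real.exp (2 * (u - w + j * lam)) ≤
            Real.exp (2 * (u + ((j + 1 : ℕ) : ℝ) * lam)) := by
          apply Real.exp_le_exp.2
          push_cast
          linarith [hw.1]
        rw [hBd]
        gcongr
    · have := tri_cont lam
      apply Continuous.intervalIntegrable
      fun_prop
  rw [intervalIntegral.integral_mul_const, tri_int hl, one_mul] at hb
  exact hb

theorem shiftIter (hK : KFacts) (h7 : Shift) (h8 : KerFacts) : ShiftIter := by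
  obtain ⟨C, hC, hCs⟩ := h7
  refine ⟨C, hC, ?_⟩
  intro T M Z hT hB lam u j hl hl1
  induction j generalizing u with
  | zero =>
    intro hu
    have := hCs T M Z hT hB lam u hl hl1 (by simpa using hu)
    simpa [Helper46.KSZ.ker] using this
  | succ j ih =>
    intro hu
    exact step hK h8 hT hC hB hl (fun v hv => ih v hv) hu

end Pool.Agent.Helper1.KL
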