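import Pool.Agent.Helper1.KL.Assembly
import Pool.Agent.Helper1.KL.BoxEx
import Pool.Agent.Helper1.KL.E4
import Pool.Agent.Helper1.KL.LocalLog
import Pool.Agent.Helper1.KL.E5
import Pool.Agent.Helper1.KL.E6
import Pool.Agent.Helper1.KL.Shift
import Pool.Agent.Helper1.KL.ShiftIter
import Pool.Agent.Helper60.KG.Final

/-!
# The explicit formula for cells of length `2^⌊k (1/2 + w - d)⌋`, `-0.33 ≤ w ≤ 1/2`

Adapted from `Helper60/KG/Final.lean` (helper60).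
-/

set_option autoImplicit false
open Filter Topology MeasureTheory Complex
open scoped Classical

namespace Pool.Agent.Helper1.KL

open Pool.Agent.Helper10.QRH Pool.Agent.Helper69.QRH
open Pool.Agent.Helper60.KG (uu_rangeG uu_spacingG ee_eq_ecw)

lemma zeroSetN_finite (s : ℝ) (k : ℕ) : (zeroSetG s k).Finite := by
  have hcomp : IsCompact (Set.Icc (57 / 100 : ℝ) 1 ×ℂ Set.Icc (-(2 : ℝ) ^ (s * k)) ((2 : ℝ) ^ (s * k))) :=
    isCompact_Icc.reProdIm isCompact_Icc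
  refine hcomp.inter_riemannZetaZeros_finite.subset ?_
  rintro ρ ⟨h1, h2, h3⟩
  refine ⟨?_, mem_riemannZetaZeros.2 h1⟩
  rw [Complex.mem_reProdIm]
  refine ⟨⟨h2.le, ?_⟩, abs_le.1 h3⟩
  by_contra h
  exact riemannZeta_ne_zero_of_one_le_re (not_le.1 h).le h1

theorem explicitCellsN : ExplicitCellsG := by
  have hJ := Helper33.KSZ.jensenEZ
  have hG : GBound := gBound (localLog hJ) (farSum hJ)
  exact explicitCellsG boxExists
    (shiftIter Helper79.QRH.kFacts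
      (shift Helper79.QRH.kFacts hG (lineTwo Helper79.QRH.kFacts hG)) Helper9.KSZ.kerFacts)
    (primeSideG Helper9.KSZ.kerFacts)
    (lineFewG Helper79.QRH.kFacts hG Helper52.QRH.duality)
    (highZerosG Helper79.QRH.kFacts (cardBox hJ))

/-- explicit formula for cells of length `2^(ecw w d k)`, line `0.575`; `w` may be negative -/
def BadZeroN (w : ℝ) : Prop := ∀ d : ℝ, 0 < d → d ≤ 1/100 → ∃ c0 : ℝ, 0 < c0 ∧ ∃ K : ℕ, ∀ k : ℕ, K ≤ k →
  ∃ (F : Finset ℂ) (c : ℂ → ℂ) (u : ℕ → ℝ) (Exc : Finset ℕ),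
  (∀ ρ ∈ F, riemannZeta ρ = 0 ∧ 0.57 < ρ.re ∧ |ρ.im| ≤ ((2 : ℝ) ^ k) ^ (1/2 - w + 2 * d) + 1) ∧
  (∀ ρ ∈ F, ‖c ρ‖ ≤ 2) ∧
  (∀ j < 2 ^ (k - Helper60.KS.ecw w d k), Real.log (2 ^ k) ≤ u j ∧ u j ≤ Real.log (2 ^ k) + 1) ∧
  (∀ j < 2 ^ (k - Helper60.KS.ecw w d k), ∀ j' < 2 ^ (k - Helper60.KS.ecw w d k), j ≠ j' →
    1 / ((2 : ℝ) ^ k) ^ (1/2 - w + 2 * d) ≤ |u j - u j'|) ∧
  (Exc.card : ℝ) ≤ ((2 : ℝ) ^ k) ^ (0.15 - 2 * w + 5 * d) ∧
  ∀ j < 2 ^ (k - Helper60.KS.ecw w d k), j ∉ Exc →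
    (Helper60.KS.npr k (Helper60.KS.ecw w d k) j : ℝ) < c0 * 2 ^ Helper60.KS.ecw w d k / k →
    1/2 ≤ ‖∑ ρ ∈ F, (Helper60.KS.mz ρ : ℂ) * c ρ * Complex.exp ((ρ - 1) * (u j : ℂ))‖

/-- explicit formula for cells of length `2^(ecw w d k)` -/
theorem badZeroN {w : ℝ} (hw0 : -(33 / 100) ≤ w) (hw : w ≤ 1 / 2) : BadZeroN w := by
  intro d hd0 hd
  obtain ⟨c₀, hc₀, K, hK⟩ := explicitCellsN (d - w) d (by linarith) (by linarith) hd0 (by linarith)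
  refine ⟨c₀, hc₀, max K ⌈2 / d⌉₊, fun k hk => ?_⟩
  obtain ⟨c, Ex, hc, hEx, hall⟩ := hK k ((le_max_left _ _).trans hk)
  have hdw : -(1 / 2) ≤ d - w := by linarith
  have hexp : 1 / 2 + (d - w) + d = 1 / 2 - w + 2 * d := by ring
  have hdk : 2 ≤ d * k := by
    have h1 : (⌈2 / d⌉₊ : ℝ) ≤ k := by exact_mod_cast (le_max_right _ _).trans hk
    have h2 := (Nat.le_ceil (2 / d)).trans h1
    rw [div_le_iff₀ hd0] at h2
    linarith
  have hpow : ∀ x : ℝ, ((2 : ℝ) ^ k) ^ x = (2 : ℝ) ^ (x * k) := by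
    intro x
    rw [← Real.rpow_natCast 2 k, ← Real.rpow_mul (by norm_num), mul_comm]
  rw [hexp] at hall
  rw [← ee_eq_ecw w d k]
  have hmem : ∀ ρ, ρ ∈ (zeroSetN_finite (1 / 2 - w + 2 * d) k).toFinset ↔
      ρ ∈ zeroSetG (1 / 2 - w + 2 * d) k := fun ρ => by simp
  refine ⟨(zeroSetN_finite (1 / 2 - w + 2 * d) k).toFinset, c, uu (d - w) k, Ex, ?_, ?_, ?_, ?_, ?_, ?_⟩
  · intro ρ hρ
    obtain ⟨h0, h1, h2⟩ := (hmem ρ).1 hρ
    refine ⟨h0, by norm_num at h1 ⊢; exact h1, ?_⟩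
    rw [hpow]
    linarith
  · intro ρ hρ
    obtain ⟨h0, h1, h2⟩ := (hmem ρ).1 hρ
    refine hc ρ (by linarith) ?_
    by_contra hcon
    exact riemannZeta_ne_zero_of_one_le_re (not_le.1 hcon).le h0
  · intro j hj
    obtain ⟨h1, h2, -⟩ := uu_rangeG hdw (j := j) (k := k) hj
    exact ⟨h1, h2⟩
  · intro j hj j' hj' hne
    rw [← hexp]
    rcases lt_or_gt_of_ne hne with h | h
    · refine (uu_spacingG hdw hdk hj hj' h).trans ?_
      rw [abs_sub_comm]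
      exact le_abs_self _
    · exact (uu_spacingG hdw hdk hj' hj h).trans (le_abs_self _)
  · rw [hpow]
    refine hEx.trans (le_of_eq ?_)
    congr 1
    ring
  · intro j hj hjE hfew
    have h := hall j hj hjE hfew _ hmem
    refine le_trans (by norm_num) h

end Pool.Agent.Helper1.KL
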