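import Pool.Agent.Helper18.KSZ.TheoremN
import Pool.Agent.Helper71.KSZ.N15

/-!
# Theorem N with weights `X ^ (θ (β - 1))`, `1/2 < θ ≤ 1`

Adapted from `Helper18/KSZ/N14.lean` (helper18) and `Helper71/KSZ/N15.lean` (helper71).
Consequence: Theorem N for the larger range `|γ| ≤ X ^ 0.84`.
-/

set_option autoImplicit false

open Finset Filter Topology

namespace Pool.Agent.Helper1.KL

open Pool.Agent.Helper18.KSZ
open Pool.Agent.Helper71.KSZ (exists_level)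

/-- one level -/
def OneLevelT (θ : ℝ) : Prop := ∃ ε : ℝ, 0 < ε ∧ ∀ η : ℝ, 0 < η → ∃ X0 : ℝ, ∀ X : ℝ, X0 ≤ X →
  ∀ Z : Finset ℂ, (∀ ρ ∈ Z, riemannZeta ρ = 0 ∧ 1 - ε ≤ ρ.re ∧ X ^ (3 / 10 : ℝ) ≤ |ρ.im| ∧
    |ρ.im| ≤ X ^ (6 / 10 : ℝ)) →
  ∑ ρ ∈ Z, mz ρ * X ^ (θ * (ρ.re - 1)) ≤ η

/-- Theorem N with weight exponent `θ` -/
def TheoremNT (θ : ℝ) : Prop := ∃ ε : ℝ, 0 < ε ∧ ∀ η : ℝ, 0 < η → ∃ X0 : ℝ, ∀ X : ℝ, X0 ≤ X →
  ∀ Z : Finset ℂ, (∀ ρ ∈ Z, riemannZeta ρ = 0 ∧ 1 - ε ≤ ρ.re ∧ |ρ.im| ≤ X ^ (6 / 10 : ℝ)) →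
  ∑ ρ ∈ Z, mz ρ * X ^ (θ * (ρ.re - 1)) ≤ η

/-- tails of `∑ k ^ 6 * exp (-k / 2)` -/
lemma tail_smallT (a B η : ℝ) (ha : 0 < a) (hη : 0 < η) : ∃ k0 : ℕ, ∀ t : Finset ℕ,
    (∀ k ∈ t, k0 ≤ k) → ∑ k ∈ t, B * ((k : ℝ) ^ 6 * Real.exp (-a * k)) ≤ η := by
  have hs : Summable (fun k : ℕ => B * ((k : ℝ) ^ 6 * Real.exp (-a * k))) := by
    apply Summable.mul_left
    exact Real.summable_pow_mul_exp_neg_nat_mul 6 ha
  obtain ⟨s, hs'⟩ := summable_iff_vanishing_norm.mp hs η hη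
  refine ⟨s.sup id + 1, fun t ht => ?_⟩
  have h1 := hs' t (by
    rw [Finset.disjoint_left]
    intro k hk hk'
    have h2 := ht k hk
    have h3 : k ≤ s.sup id := Finset.le_sup (f := id) hk'
    omega)
  exact (Real.le_norm_self _).trans h1.le

theorem oneLevelT {θ : ℝ} (hθ : 1 / 2 < θ) (h10 : InA10) (h : DensityM) : OneLevelT θ := by
  classical
  obtain ⟨ε1, C, X1, hε1, hC, hD⟩ := h
  refine ⟨ε1 / 2, by linarith, fun η hη => ?_⟩
  obtain ⟨k0, hk0⟩ := tail_smallT (θ - 1 / 2) (Real.exp θ * C) η (by linarith) hη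
  obtain ⟨T0, hT0, hT⟩ := h10 (k0 + 1)
  -- thresholds
  have hev : ∀ᶠ X : ℝ in Filter.atTop, X1 ≤ X ∧ 1 < X ∧ T0 ≤ X ^ (3 / 10 : ℝ) ∧
      2 / ε1 ≤ Real.log X := by
    refine (Filter.eventually_ge_atTop X1).and ((Filter.eventually_gt_atTop 1).and
      (((tendsto_rpow_atTop (by norm_num : (0 : ℝ) < 3 / 10)).eventually_ge_atTop T0).and
      (Real.tendsto_log_atTop.eventually_ge_atTop _)))
  obtain ⟨X0, hX0⟩ := hev.exists_forall_of_atTop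
  refine ⟨X0, fun X hX Z hZ => ?_⟩
  obtain ⟨hXX1, hX1, hXT, hXL⟩ := hX0 X hX
  have hXpos : 0 < X := by linarith
  set L : ℝ := Real.log X with hL
  have hL0 : 0 < L := Real.log_pos hX1
  set N : ℕ := ⌊ε1 * L⌋₊ with hN
  have hre : ∀ ρ ∈ Z, ρ.re < 1 := by
    intro ρ hρ
    by_contra h
    push Not at h
    exact riemannZeta_ne_zero_of_one_le_re h (hZ ρ hρ).1
  set kk : ℂ → ℕ := fun ρ => ⌈(1 - ρ.re) * L⌉₊ with hkk
  have hkk0 : ∀ ρ ∈ Z, k0 ≤ kk ρ := by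
    intro ρ hρ
    obtain ⟨h1, h2, h3, h4⟩ := hZ ρ hρ
    have h5 := hT ρ h1 (hXT.trans h3)
    have h6 : 0 < Real.log |ρ.im| := Real.log_pos (by linarith [hXT.trans h3])
    have h7 : Real.log |ρ.im| ≤ L := by
      have h8 : |ρ.im| ≤ X := by
        refine h4.trans ?_
        calc X ^ (6 / 10 : ℝ) ≤ X ^ (1 : ℝ) :=
              Real.rpow_le_rpow_of_exponent_le hX1.le (by norm_num)
          _ = X := Real.rpow_one X
      exact Real.log_le_log (by linarith [hXT.trans h3]) h8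
    have h9 : ((k0 : ℝ) + 1) / Real.log |ρ.im| ≤ 1 - ρ.re := by linarith
    have h10' : ((k0 : ℝ) + 1) ≤ (1 - ρ.re) * L := by
      calc ((k0 : ℝ) + 1) ≤ (1 - ρ.re) * Real.log |ρ.im| := by
            rwa [div_le_iff₀ h6] at h9
        _ ≤ (1 - ρ.re) * L := mul_le_mul_of_nonneg_left h7 (by linarith [hre ρ hρ])
    have h11 : (k0 : ℝ) ≤ kk ρ := by
      have := Nat.le_ceil ((1 - ρ.re) * L)
      simp only [hkk]
      linarith
    exact_mod_cast h11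
  have hkk1 : ∀ ρ ∈ Z, 1 ≤ kk ρ := by
    intro ρ hρ
    have : 0 < (1 - ρ.re) * L := mul_pos (by linarith [hre ρ hρ]) hL0
    exact Nat.ceil_pos.mpr this
  have hkkN : ∀ ρ ∈ Z, kk ρ ≤ N := by
    intro ρ hρ
    rw [hN]
    apply Nat.le_floor
    have h1 : (1 - ρ.re) * L ≤ ε1 / 2 * L :=
      mul_le_mul_of_nonneg_right (by linarith [(hZ ρ hρ).2.1]) hL0.le
    have h2 : (kk ρ : ℝ) < (1 - ρ.re) * L + 1 :=
      Nat.ceil_lt_add_one (mul_nonneg (by linarith [hre ρ hρ]) hL0.le)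
    have h3 : 2 ≤ ε1 * L := by
      have := (div_le_iff₀ hε1).mp hXL
      linarith
    linarith
  -- fiberwise
  set t : Finset ℕ := (Finset.range (N + 1)).filter (fun k => k0 ≤ k ∧ 1 ≤ k) with ht
  have hmaps : ∀ ρ ∈ Z, kk ρ ∈ t := by
    intro ρ hρ
    rw [ht, Finset.mem_filter, Finset.mem_range]
    exact ⟨Nat.lt_succ_of_le (hkkN ρ hρ), hkk0 ρ hρ, hkk1 ρ hρ⟩
  rw [← Finset.sum_fiberwise_of_maps_to hmaps]
  refine le_trans ?_ (hk0 t (fun k hk => by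
    rw [ht, Finset.mem_filter] at hk
    exact hk.2.1))
  apply Finset.sum_le_sum
  intro k hk
  rw [ht, Finset.mem_filter, Finset.mem_range] at hk
  have hkN : (k : ℝ) ≤ ε1 * L := by
    have h1 : k ≤ N := by omega
    exact (Nat.le_floor_iff (by positivity)).mp h1
  have hk1 : (1 : ℝ) ≤ k := by exact_mod_cast hk.2.2
  have h1 : ∀ ρ ∈ Z.filter (fun ρ => kk ρ = k), mz ρ * X ^ (θ * (ρ.re - 1)) ≤
      mz ρ * Real.exp (θ * (1 - k)) := by
    intro ρ hρ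
    rw [Finset.mem_filter] at hρ
    apply mul_le_mul_of_nonneg_left _ (mz_nonneg ρ)
    rw [Real.rpow_def_of_pos hXpos]
    apply Real.exp_le_exp.mpr
    have h2 : (kk ρ : ℝ) < (1 - ρ.re) * L + 1 :=
      Nat.ceil_lt_add_one (mul_nonneg (by linarith [hre ρ hρ.1]) hL0.le)
    rw [hρ.2] at h2
    rw [← hL]
    have h3 : θ * ((k : ℝ) - 1) ≤ θ * ((1 - ρ.re) * L) :=
      mul_le_mul_of_nonneg_left (by linarith) (by linarith)
    linarith
  refine (Finset.sum_le_sum h1).trans ?_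
  rw [← Finset.sum_mul]
  have h3 := hD X hXX1 k hk1 hkN (Z.filter (fun ρ => kk ρ = k)) (by
    intro ρ hρ
    rw [Finset.mem_filter] at hρ
    refine ⟨(hZ ρ hρ.1).1, ?_, (hZ ρ hρ.1).2.2.1, (hZ ρ hρ.1).2.2.2⟩
    have h2 : (1 - ρ.re) * L ≤ kk ρ := Nat.le_ceil _
    rw [hρ.2] at h2
    have h4 : 1 - ρ.re ≤ k / L := by
      rw [le_div_iff₀ hL0]; exact h2
    rw [← hL]
    linarith)
  refine (mul_le_mul_of_nonneg_right h3 (Real.exp_pos _).le).trans (le_of_eq ?_)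
  have h5 : Real.exp (k / 2 : ℝ) * Real.exp (θ * (1 - k)) =
      Real.exp θ * Real.exp (-(θ - 1 / 2) * k) := by
    rw [← Real.exp_add, ← Real.exp_add]
    congr 1
    ring
  calc C * (k : ℝ) ^ 6 * Real.exp (k / 2) * Real.exp (θ * (1 - k)) =
      C * (k : ℝ) ^ 6 * (Real.exp (k / 2 : ℝ) * Real.exp (θ * (1 - k))) := by ring
    _ = _ := by rw [h5]; ring

/-- the low zeros contribute `o(1)` -/
theorem low_zerosT {θ : ℝ} (hθ : 0 < θ) (ε B η : ℝ) (hη : 0 < η) : ∃ X0 : ℝ, ∀ X : ℝ, X0 ≤ X → ∀ Z : Finset ℂ,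
    (∀ ρ ∈ Z, riemannZeta ρ = 0 ∧ 1 - ε ≤ ρ.re ∧ |ρ.im| ≤ B) →
    ∑ ρ ∈ Z, mz ρ * X ^ (θ * (ρ.re - 1)) ≤ η := by
  classical
  have hcomp : IsCompact (Set.Icc (1 - ε) 1 ×ℂ Set.Icc (-B) B) :=
    isCompact_Icc.reProdIm isCompact_Icc
  set F : Finset ℂ := hcomp.inter_riemannZetaZeros_finite.toFinset with hF
  have hmem : ∀ ρ : ℂ, riemannZeta ρ = 0 → 1 - ε ≤ ρ.re → |ρ.im| ≤ B → ρ ∈ F := by
    intro ρ h1 h2 h3
    rw [hF, Set.Finite.mem_toFinset]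
    refine ⟨?_, mem_riemannZetaZeros.2 h1⟩
    rw [Complex.mem_reProdIm]
    refine ⟨⟨h2, ?_⟩, abs_le.1 h3⟩
    by_contra h
    exact riemannZeta_ne_zero_of_one_le_re (not_le.1 h).le h1
  have hlim : Tendsto (fun X : ℝ => ∑ ρ ∈ F, mz ρ * X ^ (θ * (ρ.re - 1))) atTop
      (𝓝 (∑ ρ ∈ F, mz ρ * 0)) := by
    refine tendsto_finsetSum _ fun ρ hρ => Tendsto.const_mul _ ?_
    have h1 : riemannZeta ρ = 0 := by
      rw [hF, Set.Finite.mem_toFinset] at hρ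
      exact mem_riemannZetaZeros.1 hρ.2
    have h2 : ρ.re < 1 := by
      by_contra h
      exact riemannZeta_ne_zero_of_one_le_re (not_lt.1 h) h1
    have h3 := tendsto_rpow_neg_atTop (y := θ * (1 - ρ.re)) (mul_pos hθ (by linarith))
    refine h3.congr fun X => ?_
    congr 1
    ring
  simp only [mul_zero, Finset.sum_const_zero] at hlim
  obtain ⟨X0, hX0⟩ := eventually_atTop.1 (hlim.eventually (ge_mem_nhds hη))
  refine ⟨max X0 0, fun X hX Z hZ => ?_⟩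
  refine le_trans ?_ (hX0 X ((le_max_left _ _).trans hX))
  refine Finset.sum_le_sum_of_subset_of_nonneg ?_ ?_
  · intro ρ hρ
    obtain ⟨h1, h2, h3⟩ := hZ ρ hρ
    exact hmem ρ h1 h2 h3
  · intro ρ _ _
    exact mul_nonneg (mz_nonneg ρ) (Real.rpow_nonneg ((le_max_right _ _).trans hX) _)

theorem theoremNT {θ : ℝ} (hθ : 0 < θ) (h10 : InA10) (h : OneLevelT θ) : TheoremNT θ := by
  classical
  obtain ⟨ε, hε, H⟩ := h
  refine ⟨ε, hε, fun η hη => ?_⟩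
  obtain ⟨X1, hX1⟩ := H (η / 4) (by linarith)
  obtain ⟨T0, hT0, hzf⟩ := h10 (1 / θ)
  -- the threshold between low and high zeros
  set B : ℝ := max (max (T0 ^ (10 / 3 : ℝ)) X1) 3 with hB
  have hB3 : 3 ≤ B := le_max_right _ _
  have hBX1 : X1 ≤ B := (le_max_right _ _).trans (le_max_left _ _)
  have hBT0 : T0 ^ (10 / 3 : ℝ) ≤ B := (le_max_left _ _).trans (le_max_left _ _)
  obtain ⟨X2, hX2⟩ := low_zerosT hθ ε (B ^ (6 / 10 : ℝ)) (η / 2) (by linarith)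
  refine ⟨max X2 3, fun X hX Z hZ => ?_⟩
  have hXX2 : X2 ≤ X := (le_max_left _ _).trans hX
  have hX3 : 3 ≤ X := (le_max_right _ _).trans hX
  have hX0 : 0 < X := by linarith
  have hXone : 1 < X := by linarith
  rw [← Finset.sum_filter_add_sum_filter_not Z (fun ρ => |ρ.im| ≤ B ^ (6 / 10 : ℝ))]
  have hlow : ∑ ρ ∈ Z.filter (fun ρ => |ρ.im| ≤ B ^ (6 / 10 : ℝ)), mz ρ * X ^ (θ * (ρ.re - 1)) ≤
      η / 2 := by
    refine hX2 X hXX2 _ fun ρ hρ => ?_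
    rw [Finset.mem_filter] at hρ
    obtain ⟨h1, h2, -⟩ := hZ ρ hρ.1
    exact ⟨h1, h2, hρ.2⟩
  set Zh := Z.filter (fun ρ => ¬ |ρ.im| ≤ B ^ (6 / 10 : ℝ)) with hZh
  -- levels
  have hlev : ∀ ρ : ℂ, ρ ∈ Zh → ∃ j : ℕ, (X ^ ((1 / 2 : ℝ) ^ j)) ^ (3 / 10 : ℝ) ≤ |ρ.im| ∧
      |ρ.im| ≤ (X ^ ((1 / 2 : ℝ) ^ j)) ^ (6 / 10 : ℝ) := by
    intro ρ hρ
    rw [hZh, Finset.mem_filter, not_le] at hρ
    obtain ⟨h1, h2, h3⟩ := hZ ρ hρ.1
    refine exists_level hXone ?_ h3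
    exact lt_of_le_of_lt (Real.one_le_rpow (by linarith) (by norm_num)) hρ.2
  choose! lev hlev1 hlev2 using hlev
  have hhigh : ∑ ρ ∈ Zh, mz ρ * X ^ (θ * (ρ.re - 1)) ≤ η / 2 := by
    rw [← Finset.sum_fiberwise_of_maps_to (g := lev) (t := Zh.image lev)
      (fun ρ hρ => Finset.mem_image_of_mem _ hρ)]
    have hfib : ∀ j ∈ Zh.image lev, ∑ ρ ∈ Zh.filter (fun ρ => lev ρ = j), mz ρ * X ^ (θ * (ρ.re - 1)) ≤
        η / 4 * (1 / 2 : ℝ) ^ j := by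
      intro j hj
      set Xj : ℝ := X ^ ((1 / 2 : ℝ) ^ j) with hXj
      have hXj0 : 0 < Xj := Real.rpow_pos_of_pos hX0 _
      -- facts about zeros of the fiber
      have hfacts : ∀ ρ ∈ Zh.filter (fun ρ => lev ρ = j), riemannZeta ρ = 0 ∧ 1 - ε ≤ ρ.re ∧
          Xj ^ (3 / 10 : ℝ) ≤ |ρ.im| ∧ |ρ.im| ≤ Xj ^ (6 / 10 : ℝ) ∧ B ^ (6 / 10 : ℝ) < |ρ.im| := by
        intro ρ hρ
        rw [Finset.mem_filter] at hρ
        have hρZ := hρ.1
        rw [hZh, Finset.mem_filter, not_le] at hρZ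
        obtain ⟨h1, h2, h3⟩ := hZ ρ hρZ.1
        have h4 := hlev1 ρ hρ.1
        have h5 := hlev2 ρ hρ.1
        rw [hρ.2] at h4 h5
        exact ⟨h1, h2, h4, h5, hρZ.2⟩
      -- the fiber is nonempty
      obtain ⟨ρ0, hρ0, hρ0j⟩ := Finset.mem_image.1 hj
      have hXjB : B < Xj := by
        obtain ⟨-, -, -, h5, h6⟩ := hfacts ρ0 (Finset.mem_filter.2 ⟨hρ0, hρ0j⟩)
        have h7 : B ^ (6 / 10 : ℝ) < Xj ^ (6 / 10 : ℝ) := lt_of_lt_of_le h6 h5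
        exact (Real.rpow_lt_rpow_iff (by linarith) hXj0.le (by norm_num)).1 h7
      have hXj1 : 1 < Xj := by linarith
      have hlogXj : 0 < Real.log Xj := Real.log_pos hXj1
      have hone := hX1 Xj (hBX1.trans hXjB.le) (Zh.filter (fun ρ => lev ρ = j)) (by
        intro ρ hρ
        obtain ⟨h1, h2, h3, h4, -⟩ := hfacts ρ hρ
        exact ⟨h1, h2, h3, h4⟩)
      have hterm : ∀ ρ ∈ Zh.filter (fun ρ => lev ρ = j), mz ρ * X ^ (θ * (ρ.re - 1)) ≤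
          (mz ρ * Xj ^ (θ * (ρ.re - 1))) * (1 / 2 : ℝ) ^ j := by
        intro ρ hρ
        obtain ⟨h1, h2, h3, h4, h5⟩ := hfacts ρ hρ
        have hT : T0 ≤ |ρ.im| := by
          have h6 : T0 ≤ Xj ^ (3 / 10 : ℝ) := by
            have h7 : (T0 ^ (10 / 3 : ℝ)) ^ (3 / 10 : ℝ) ≤ Xj ^ (3 / 10 : ℝ) :=
              Real.rpow_le_rpow (by positivity) (hBT0.trans hXjB.le) (by norm_num)
            rw [← Real.rpow_mul (by linarith)] at h7
            norm_num at h7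
            exact h7
          exact h6.trans h3
        have hz := hzf ρ h1 hT
        have him1 : 1 < |ρ.im| := by linarith
        have hlogim : 0 < Real.log |ρ.im| := Real.log_pos him1
        have hlogle : Real.log |ρ.im| ≤ Real.log Xj := by
          refine Real.log_le_log (by linarith) (h4.trans ?_)
          have h8 := Real.rpow_le_rpow_of_exponent_le hXj1.le (by norm_num : (6 / 10 : ℝ) ≤ 1)
          rwa [Real.rpow_one] at h8
        have hx : (1 / θ) / Real.log Xj ≤ 1 - ρ.re := by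
          have h9 : (1 / θ) / Real.log Xj ≤ (1 / θ) / Real.log |ρ.im| :=
            div_le_div_of_nonneg_left (by positivity) hlogim hlogle
          linarith
        have hx' : 1 ≤ (1 - ρ.re) * (θ * Real.log Xj) := by
          rw [div_le_iff₀ hlogXj, div_le_iff₀ hθ] at hx
          linarith
        -- X = Xj ^ (2 ^ j)
        have hXXj : X ^ (θ * (ρ.re - 1)) = Xj ^ ((2 : ℝ) ^ j * (θ * (ρ.re - 1))) := by
          rw [hXj, ← Real.rpow_mul hX0.le, ← mul_assoc, ← mul_pow]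
          norm_num
        rw [hXXj, mul_assoc]
        refine mul_le_mul_of_nonneg_left ?_ (mz_nonneg ρ)
        rw [show (2 : ℝ) ^ j * (θ * (ρ.re - 1)) =
            θ * (ρ.re - 1) + ((2 : ℝ) ^ j - 1) * (θ * (ρ.re - 1)) by ring,
          Real.rpow_add hXj0]
        refine mul_le_mul_of_nonneg_left ?_ (Real.rpow_nonneg hXj0.le _)
        rw [Real.rpow_def_of_pos hXj0]
        have h2j : (j : ℝ) ≤ (2 : ℝ) ^ j - 1 := by
          have h10 : (1 : ℝ) + j * 1 ≤ (1 + 1) ^ j := one_add_mul_le_pow (by norm_num) j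
          norm_num at h10
          linarith
        have h11 : Real.log Xj * (((2 : ℝ) ^ j - 1) * (θ * (ρ.re - 1))) ≤ -(j : ℝ) := by
          have h12 : (j : ℝ) * 1 ≤ ((2 : ℝ) ^ j - 1) * ((1 - ρ.re) * (θ * Real.log Xj)) :=
            mul_le_mul h2j hx' (by norm_num) (by linarith [Nat.cast_nonneg (α := ℝ) j])
          linarith
        refine (Real.exp_le_exp.2 h11).trans ?_
        have h13 : Real.exp (-(j : ℝ)) = (Real.exp (-1)) ^ j := by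
          rw [← Real.exp_nat_mul]
          congr 1
          ring
        rw [h13]
        refine pow_le_pow_left₀ (Real.exp_pos _).le ?_ j
        rw [Real.exp_neg, one_div]
        refine inv_anti₀ (by norm_num) ?_
        have := Real.add_one_le_exp (1 : ℝ)
        linarith
      calc ∑ ρ ∈ Zh.filter (fun ρ => lev ρ = j), mz ρ * X ^ (θ * (ρ.re - 1))
          ≤ ∑ ρ ∈ Zh.filter (fun ρ => lev ρ = j), (mz ρ * Xj ^ (θ * (ρ.re - 1))) * (1 / 2 : ℝ) ^ j :=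
            Finset.sum_le_sum hterm
        _ = (∑ ρ ∈ Zh.filter (fun ρ => lev ρ = j), mz ρ * Xj ^ (θ * (ρ.re - 1))) * (1 / 2 : ℝ) ^ j := by
            rw [Finset.sum_mul]
        _ ≤ η / 4 * (1 / 2 : ℝ) ^ j := mul_le_mul_of_nonneg_right hone (by positivity)
    calc ∑ j ∈ Zh.image lev, ∑ ρ ∈ Zh.filter (fun ρ => lev ρ = j), mz ρ * X ^ (θ * (ρ.re - 1))
        ≤ ∑ j ∈ Zh.image lev, η / 4 * (1 / 2 : ℝ) ^ j := Finset.sum_le_sum hfib
      _ = η / 4 * ∑ j ∈ Zh.image lev, (1 / 2 : ℝ) ^ j := by rw [Finset.mul_sum]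
      _ ≤ η / 4 * 2 := by
          refine mul_le_mul_of_nonneg_left ?_ (by linarith)
          exact (summable_geometric_two.sum_le_tsum _ (fun j _ => by positivity)).trans
            tsum_geometric_two.le
      _ = η / 2 := by ring
  linarith


/-- Theorem N with the weights `X ^ (θ (β - 1))`, for every `θ > 1/2`, heights up to `X ^ 0.6` -/
theorem theoremNTheta {θ : ℝ} (hθ : 1 / 2 < θ) : TheoremNT θ :=
  theoremNT (by linarith) Helper33.KSZ.inA10 (oneLevelT hθ Helper33.KSZ.inA10 densityM')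

/-- Theorem N for heights up to `X ^ τ`, `τ < 6/5` -/
theorem theoremNHeight {τ : ℝ} (hτ0 : 0 < τ) (hτ : τ < 6 / 5) :
    ∃ ε : ℝ, 0 < ε ∧ ∀ η : ℝ, 0 < η → ∃ X0 : ℝ, ∀ X : ℝ, X0 ≤ X →
    ∀ Z : Finset ℂ, (∀ ρ ∈ Z, riemannZeta ρ = 0 ∧ 1 - ε ≤ ρ.re ∧ |ρ.im| ≤ X ^ τ) →
    ∑ ρ ∈ Z, mz ρ * X ^ (ρ.re - 1) ≤ η := by
  -- `θ = min 1 (0.6 / τ)`
  set θ : ℝ := min 1 (6 / 10 / τ) with hθd
  have hθ1 : θ ≤ 1 := min_le_left _ _
  have hθ : 1 / 2 < θ := by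
    rw [hθd, lt_min_iff]
    refine ⟨by norm_num, ?_⟩
    rw [lt_div_iff₀ hτ0]
    linarith
  have hθ0 : 0 < θ := by linarith
  have hθτ : τ ≤ 1 / θ * (6 / 10) := by
    have h1 : θ ≤ 6 / 10 / τ := min_le_right _ _
    rw [le_div_iff₀ hτ0] at h1
    rw [div_mul_eq_mul_div, le_div_iff₀ hθ0]
    linarith
  obtain ⟨ε, hε, H⟩ := theoremNTheta hθ
  refine ⟨ε, hε, fun η hη => ?_⟩
  obtain ⟨X0, hX0⟩ := H η hη
  refine ⟨max X0 1, fun X hX Z hZ => ?_⟩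
  have hX1 : 1 ≤ X := (le_max_right _ _).trans hX
  have h1θ : 1 ≤ 1 / θ := by rw [le_div_iff₀ hθ0]; linarith
  have hXX : X ≤ X ^ (1 / θ) := by
    calc X = X ^ (1 : ℝ) := (Real.rpow_one X).symm
      _ ≤ X ^ (1 / θ) := Real.rpow_le_rpow_of_exponent_le hX1 h1θ
  have h := hX0 (X ^ (1 / θ)) (((le_max_left _ _).trans hX).trans hXX) Z (by
    intro ρ hρ
    obtain ⟨h1, h2, h3⟩ := hZ ρ hρ
    refine ⟨h1, h2, h3.trans ?_⟩
    rw [← Real.rpow_mul (by linarith)]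
    exact Real.rpow_le_rpow_of_exponent_le hX1 hθτ)
  refine le_trans (le_of_eq ?_) h
  refine Finset.sum_congr rfl fun ρ _ => ?_
  rw [← Real.rpow_mul (by linarith)]
  congr 2
  field_simp

end Pool.Agent.Helper1.KL
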