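import Pool.Agent.Helper16.Place

set_option autoImplicit false

/-!
Project KL (MP_0b9e0b_ag): Chow groups of subvarieties of products of projective lines;
products of Kloosterman curves. Definitions.
-/

namespace Pool.Agent.Helper1.KL

open Pool.Agent.Helper16

/-! ### Points of products of projective lines -/

/-- A condition on systems of coordinates `z j` in `N ∪ {∞}` (`none` stands for `∞`), for all
extension fields `N` of `F`: it describes a subset `V` of the product over `σ` of projective
lines over `F` by its points over all fields. -/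
abbrev Var (F σ : Type) [Field F] : Type 1 :=
  ∀ (N : Type) [Field N] [Algebra F N], (σ → Option N) → Prop

/-- A condition on pairs of a point and an element of the field. -/
abbrev VarF (F σ : Type) [Field F] : Type 1 :=
  ∀ (N : Type) [Field N] [Algebra F N], (σ → Option N) → N → Prop

/-- An integral closed subscheme of the product over `σ` of projective lines over `F` is
represented by its generic point: the set of the finite coordinates, and the prime ideal of the
polynomials over `F` which vanish at this point, the infinite coordinates being replaced by `0`. -/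
abbrev Key (F σ : Type) [Field F] : Type := Set σ × Ideal (MvPolynomial σ F)

/-- The closure over `F` of the point `z`. -/
noncomputable def key (F : Type) {σ N : Type} [Field F] [Field N] [Algebra F N]
    (z : σ → Option N) : Key F σ :=
  ({j | z j ≠ none}, RingHom.ker (MvPolynomial.aeval (R := F) fun j => (z j).getD 0))

/-- The field generated over `F` by the finite coordinates of `z`. -/
noncomputable def fld (F : Type) {σ N : Type} [Field F] [Field N] [Algebra F N]
    (z : σ → Option N) : IntermediateField F N :=
  IntermediateField.adjoin F {a | ∃ j, z j = some a}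

open scoped Classical in
/-- The point to which `z` specialises at the place `v`. -/
noncomputable def spec {F σ N : Type} [Field F] [Field N] [Algebra F N] (v : Place F N)
    (z : σ → Option N) : σ → Option v.resField :=
  fun j => (z j).bind fun a => if a ∈ v.ring then some (v.res a) else none

/-! ### Chow groups -/

/-- Cycles of dimension `r` with rational coefficients on `V`. -/
noncomputable def cyc {F σ : Type} [Field F] (V : Var F σ) (r : ℕ) :
    Submodule ℚ (Key F σ →₀ ℚ) :=
  Submodule.span ℚ {c | ∃ (N : Type) (_ : Field N) (_ : Algebra F N) (z : σ → Option N),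
    V N z ∧ Algebra.trdeg F (fld F z) = r ∧ c = Finsupp.single (key F z) 1}

/-- The point to which `z` specialises at the place `v` lies in `V` and has a closure of
dimension `r`. -/
abbrev Centre {F σ N : Type} [Field F] [Field N] [Algebra F N] (V : Var F σ) (r : ℕ)
    (z : σ → Option N) (v : Place F N) : Prop :=
  V v.resField (spec v z) ∧ Algebra.trdeg F (fld F (spec v z)) = r

/-- The cycle `ord_v(f) [κ(v) : F(z(v))] [z(v)]`. -/
noncomputable abbrev term {F σ N : Type} [Field F] [Field N] [Algebra F N]
    (z : σ → Option N) (f : N) (v : Place F N) : Key F σ →₀ ℚ :=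
  Finsupp.single (key F (spec v z))
    ((v.ord f * Module.finrank (fld F (spec v z)) v.resField : ℤ) : ℚ)

/-- The relation given by `z` and `f`; `S` is the set of the places which occur in it. -/
abbrev IsRel {F σ N : Type} [Field F] [Field N] [Algebra F N] (V : Var F σ) (P : VarF F σ)
    (r : ℕ) (z : σ → Option N) (f : N) (S : Finset (Place F N)) (c : Key F σ →₀ ℚ) : Prop :=
  Algebra.EssFiniteType F N ∧ Algebra.trdeg F N = r + 1 ∧ P N z f ∧ f ≠ 0 ∧
    (∀ v, v ∈ S ↔ v.ord f ≠ 0 ∧ Centre V r z v) ∧ c = ∑ v ∈ S, term z f v

/-- Relations between cycles of dimension `r` on `V`. Let `N` be a finitely generated field of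
transcendence degree `r + 1` over `F`, `z` a system of coordinates over `N` and `f` a nonzero
element of `N`, such that `P z f`. The relation is the sum of `ord_v(f) [κ(v) : F(z(v))] [z(v)]`
over the places `v` of `N` over `F` such that the point `z(v)` to which `z` specialises
at `v` lies in `V` and has a closure of dimension `r`. -/
def relations {F σ : Type} [Field F] (V : Var F σ) (P : VarF F σ) (r : ℕ) :
    Set (Key F σ →₀ ℚ) :=
  {c | ∃ (N : Type) (_ : Field N) (_ : Algebra F N) (z : σ → Option N) (f : N)
    (S : Finset (Place F N)), IsRel V P r z f S c}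

/-- The span of the relations. -/
noncomputable def rat {F σ : Type} [Field F] (V : Var F σ) (P : VarF F σ) (r : ℕ) :
    Submodule ℚ (Key F σ →₀ ℚ) :=
  Submodule.span ℚ (relations V P r)

/-- Cycles of dimension `r` on `V` modulo the relations. -/
abbrev CH {F σ : Type} [Field F] (V : Var F σ) (P : VarF F σ) (r : ℕ) : Type :=
  cyc V r ⧸ (rat V P r).submoduleOf (cyc V r)

/-! ### Products of Kloosterman curves -/

/-- `(x, y)` is a point of the closure in `P^1 × P^1` of the curve `y ^ p - y = t x + b / x`. -/
def Curve (p : ℕ) {N : Type} [Field N] (t b : N) (x y : Option N) : Prop :=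
  (y = none ∧ (x = none ∨ x = some 0)) ∨
    ∃ a c : N, x = some a ∧ y = some c ∧ a * (c ^ p - c) = t * a ^ 2 + b

/-- The product `X` over `k(t)` of the curves `y ^ p - y = t x + b i / x`; the coordinates of
the factor with number `i` are `z (Sum.inl i)` and `z (Sum.inr i)`. -/
def XV {k : Type} [Field k] (p : ℕ) {n : ℕ} (b : Fin n → k) : Var (RatFunc k) (Fin n ⊕ Fin n) :=
  fun N _ _ z => ∀ i, Curve p (algebraMap (RatFunc k) N RatFunc.X)
    (algebraMap (RatFunc k) N (RatFunc.C (b i))) (z (Sum.inl i)) (z (Sum.inr i))

/-- The coefficient of `τ` with number `i`, as a natural number; it is `0` if `τ i` is `none`. -/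
def coef {p n : ℕ} (τ : Fin n → Option (ZMod p)) (i : Fin n) : ℕ := ((τ i).getD 0).val

/-- `∑ ρ_i b_i / x_i`. -/
noncomputable def Bfun {k : Type} [Field k] {p n : ℕ} (b : Fin n → k)
    (τ : Fin n → Option (ZMod p)) {N : Type} [Field N] [Algebra k N] (x : Fin n → Option N) : N :=
  ∑ i, (coef τ i : N) * algebraMap k N (b i) * ((x i).getD 0)⁻¹

/-- The points `x` with `x i = ∞` if `τ i` is `none`, `x i` finite and not `0` otherwise, and
`∑ ρ_i x_i = 0`. -/
def AV {k : Type} [Field k] {p n : ℕ} (τ : Fin n → Option (ZMod p)) : Var k (Fin n) :=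
  fun N _ _ x => (∀ i, τ i = none → x i = none) ∧ (∀ i, τ i ≠ none → ∃ a, a ≠ 0 ∧ x i = some a) ∧
    ∑ i, (coef τ i : N) * (x i).getD 0 = 0

/-- The points of `AV` with `∑ ρ_i b_i / x_i = 0`. -/
def YV {k : Type} [Field k] {p n : ℕ} (b : Fin n → k) (τ : Fin n → Option (ZMod p)) :
    Var k (Fin n) :=
  fun N _ _ x => AV (k := k) τ N x ∧ Bfun b τ x = 0

/-- The Chow group of `X`. -/
abbrev CHX {k : Type} [Field k] (p : ℕ) {n : ℕ} (b : Fin n → k) (r : ℕ) : Type :=
  CH (XV p b) (fun N _ _ z _ => XV p b N z) r

/-- The Chow group of `YV b τ` modulo the divisors of the function `∑ ρ_i b_i / x_i` on the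
subvarieties of `AV τ`. -/
abbrev CHY {k : Type} [Field k] {p n : ℕ} (b : Fin n → k) (τ : Fin n → Option (ZMod p))
    (r : ℕ) : Type :=
  CH (YV b τ) (fun N _ _ x f => YV b τ N x ∨ (AV (k := k) τ N x ∧ f = Bfun b τ x)) r

/-- The indices `τ` whose coefficients are not all `0`. -/
def Idx (p n : ℕ) : Set (Fin n → Option (ZMod p)) := {τ | ∃ i, coef τ i ≠ 0}

/-- The theorem to be proved. -/
def Main (k : Type) [Field k] (p : ℕ) [Fact p.Prime] (n : ℕ) (b : Fin n → k) (r : ℕ) : Prop :=
  open scoped Classical in
  Module.rank ℚ (CHX p b r) ≤ (n.choose r : Cardinal.{0}) +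
    ∑ τ : Fin n → Option (ZMod p) with τ ∈ Idx p n, Module.rank ℚ (CHY b τ r)

end Pool.Agent.Helper1.KL
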