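import Pool.Agent.Helper1.KL.St
import Pool.Agent.Helper46.KSZ.Final

/-! Helper18/KSZ/E10.lean (helper18), Helper60/KG/E10.lean (helper60) adapted to the line 0.575 (box 57/100) by helper1 -/

set_option autoImplicit false
open Filter Topology Finset
open scoped ArithmeticFunction.vonMangoldt

namespace Pool.Agent.Helper1.KL

open Pool.Agent.Helper10.QRH Pool.Agent.Helper30.QRH
open Pool.Agent.Helper18.KSZ (ker_sum_le num_bound')

lemma pow_large3 (B : ℝ) : ∃ K : ℕ, ∀ k : ℕ, K ≤ k → B * (k : ℝ) ^ 2 ≤ (2 : ℝ) ^ ((3 / 20 : ℝ) * k) := by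
  have h1 : 1 < (2 : ℝ) ^ (3 / 20 : ℝ) := Real.one_lt_rpow (by norm_num) (by norm_num)
  have h2 := (tendsto_pow_const_div_const_pow_of_one_lt 2 h1).const_mul B
  rw [mul_zero] at h2
  have h4 := h2.eventually (gt_mem_nhds (show (0 : ℝ) < 1 by norm_num))
  obtain ⟨K, hK⟩ := eventually_atTop.mp h4
  refine ⟨K, fun k hk => ?_⟩
  have h5 := (hK k hk).le
  have h6 : (0 : ℝ) < ((2 : ℝ) ^ (3 / 20 : ℝ)) ^ k := by positivity
  rw [← mul_div_assoc, div_le_one h6] at h5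
  refine h5.trans (le_of_eq ?_)
  rw [← Real.rpow_natCast, ← Real.rpow_mul (by norm_num)]

lemma ee_largeG {d : ℝ} (hd0 : -(1 / 2) ≤ d) (hd : d ≤ 34 / 100) {k : ℕ} (hk : 100 ≤ k) :
    (2 : ℝ) ^ ((3 / 20 : ℝ) * k) ≤ (2 : ℝ) ^ ee d k ∧
    (2 : ℝ) ^ ((3 / 20 : ℝ) * k) ≤ (((2 : ℕ) ^ (k / 2) : ℕ) : ℝ) ∧ ee d k ≤ k := by
  have hk' : (100 : ℝ) ≤ k := by exact_mod_cast hk
  refine ⟨?_, ?_, ?_⟩
  · rw [← Real.rpow_natCast 2 (ee d k)]
    apply Real.rpow_le_rpow_of_exponent_le (by norm_num)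
    have h1 := Nat.lt_floor_add_one ((k : ℝ) * (1 / 2 - d))
    unfold ee
    nlinarith
  · push_cast
    rw [← Real.rpow_natCast 2 (k / 2)]
    apply Real.rpow_le_rpow_of_exponent_le (by norm_num)
    have h1 : k ≤ 2 * (k / 2) + 1 := by omega
    have h2 : (k : ℝ) ≤ 2 * ((k / 2 : ℕ) : ℝ) + 1 := by exact_mod_cast h1
    linarith
  · unfold ee
    apply Nat.floor_le_of_le
    nlinarith

/-- E10 -/
theorem primeSideG (h8 : KerFacts) : PrimeSideG := by
  intro p d hp hd0 hd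
  obtain ⟨K, hK⟩ := pow_large3 (2000 * p)
  refine ⟨max K 100, fun k hk j hj hfew => ?_⟩
  have hkK : K ≤ k := (le_max_left _ _).trans hk
  have hk100 : 100 ≤ k := (le_max_right _ _).trans hk
  have hk100' : (100 : ℝ) ≤ k := by exact_mod_cast hk100
  obtain ⟨he1, he2, he3⟩ := ee_largeG hd0 hd hk100
  have hbig := hK k hkK
  set e := ee d k with he
  have hp' : (1 : ℝ) ≤ p := by exact_mod_cast hp
  have hp0 : (0 : ℝ) < p := by linarith
  set X : ℝ := (2 : ℝ) ^ k with hX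
  have hX0 : 0 < X := by positivity
  set y : ℕ := 2 ^ k + j * 2 ^ e with hy
  have hyH : y + 2 ^ e ≤ 2 ^ (k + 1) := by
    have h1 : (j + 1) * 2 ^ e ≤ 2 ^ (k - e) * 2 ^ e := Nat.mul_le_mul_right _ hj
    rw [← pow_add, Nat.sub_add_cancel he3] at h1
    rw [hy, pow_succ]
    nlinarith
  have hlamdef : lamk p d k = (2 : ℝ) ^ e / (8 * p * X) := rfl
  have hlam0 : 0 < lamk p d k := by rw [hlamdef]; positivity
  have hu : uu d k j = Real.log ((y : ℝ) + ((2 ^ e : ℕ) : ℝ) / 2) := by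
    unfold uu
    rw [hy, he]
    push_cast
    ring_nf
  have hcell : cell d k j = Ico y (y + 2 ^ e) := by
    unfold cell
    rw [hy]
    congr 1
    ring
  have h1 := ker_sum_le (X := X) h8 hp y (2 ^ e) hlam0 hX0 (by
      rw [hlamdef]
      push_cast
      have : (p : ℝ) * (2 ^ e / (8 * p * X)) * (4 * X) = 2 ^ e / 2 := by
        field_simp; ring
      rw [this]
      have : (0 : ℝ) < 2 ^ e := by positivity
      linarith)
    (by rw [hy, hX]; push_cast; have : (0 : ℝ) ≤ (j : ℝ) * 2 ^ e := by positivity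
        linarith)
    (by rw [hX]; have : ((y + 2 ^ e : ℕ) : ℝ) ≤ ((2 ^ (k + 1) : ℕ) : ℝ) := by exact_mod_cast hyH
        push_cast at this ⊢
        rw [pow_succ] at this
        linarith)
  rw [hu]
  refine h1.trans ?_
  have hD0 : 0 < 2 ^ (k / 2) := by positivity
  have hDD : 2 ^ (k / 2) * 2 ^ (k / 2) ≤ y := by
    rw [← pow_add]
    have : 2 ^ (k / 2 + k / 2) ≤ 2 ^ k := Nat.pow_le_pow_right (by norm_num) (by omega)
    rw [hy]; omega
  have hfew' : ((((Ico y (y + 2 ^ e)).filter Nat.Prime).card : ℕ) : ℝ) ≤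
      1 / (200 * p) * (2 : ℝ) ^ e / k := by
    unfold Few at hfew
    rw [hcell] at hfew
    exact hfew.le
  have h2 := cell_sum k y (2 ^ e) (2 ^ (k / 2)) hD0 hDD hyH _ hfew'
  have h3 : 1 / lamk p d k * ∑ n ∈ Ico y (y + 2 ^ e), Λ n ≤
      1 / lamk p d k * (((k + 1) * Real.log 2) * (1 / (200 * p) * (2 : ℝ) ^ e / k +
        k * (((2 ^ e : ℕ) : ℝ) / ((2 ^ (k / 2) : ℕ) : ℝ) + 1))) :=
    mul_le_mul_of_nonneg_left h2 (by positivity)
  refine h3.trans ?_
  rw [hlamdef]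
  have h4 := num_bound' (K := k) (H := (2 : ℝ) ^ e) (D := ((2 ^ (k / 2) : ℕ) : ℝ)) (X := X)
    (L := Real.log 2) (p := p) hk100' hp' (hbig.trans he1) (hbig.trans he2) hX0
    (Real.log_nonneg (by norm_num)) (by have := Real.log_two_lt_d9; linarith)
  push_cast at h4 ⊢
  exact h4

end Pool.Agent.Helper1.KL
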