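import Pool.Agent.Helper1.KL.E10

/-! Helper60/KG/E12.lean (helper60) adapted to the line 0.575 (box 57/100) by helper1 -/

set_option autoImplicit false
open Filter Topology

namespace Pool.Agent.Helper1.KL

open Pool.Agent.Helper10.QRH
open Pool.Agent.Helper18.KSZ (geo_small multiset_sum_le')

/-- E12 -/
theorem highZerosG (hK : KFacts) (h4 : CardBox) : HighZerosG := by
  intro d η hdm hd hη
  obtain ⟨C1, hC1⟩ := hK.bound
  obtain ⟨C2, hC2, hcard⟩ := h4
  set p : ℕ := ⌈8 / η⌉₊ with hp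
  have hpd : 8 ≤ (p : ℝ) * η := by
    have := Nat.le_ceil (8 / η)
    rw [← hp, div_le_iff₀ hη] at this
    exact this
  have hp1 : 1 ≤ p := by
    rw [hp]
    exact Nat.ceil_pos.mpr (by positivity)
  have hp1' : (1 : ℝ) ≤ p := by exact_mod_cast hp1
  have hp0 : (0 : ℝ) < p := by linarith
  set B : ℝ := (|C1| * (16 * p) ^ 2) ^ p with hB
  have hB0 : 0 ≤ B := by rw [hB]; positivity
  obtain ⟨K, hKK⟩ := geo_small (2 * (C2 * B))
  refine ⟨p, hp1, max K 100, fun k hk M Z hM j hj => ?_⟩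
  have hkK : K ≤ k := (le_max_left _ _).trans hk
  have hk100 : 100 ≤ k := (le_max_right _ _).trans hk
  have hk100' : (100 : ℝ) ≤ k := by exact_mod_cast hk100
  obtain ⟨he1, he2, he3⟩ := ee_largeG hdm hd hk100
  set e := ee d k with he
  set X : ℝ := (2 : ℝ) ^ k with hX
  have hX0 : 0 < X := by positivity
  have hlamdef : lamk p d k = (2 : ℝ) ^ e / (8 * p * X) := rfl
  set lam := lamk p d k with hlam
  have hlam0 : 0 < lam := by rw [hlamdef]; positivity
  have heX : (2 : ℝ) ^ e ≤ X := pow_le_pow_right₀ (by norm_num) he3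
  have hlam1 : lam ≤ 1 := by
    rw [hlamdef, div_le_one (by positivity)]
    nlinarith
  -- the point u
  have huexp : Real.exp (uu d k j) ≤ 2 * X ∧ 0 ≤ uu d k j := by
    have hyH : 2 ^ k + j * 2 ^ e + 2 ^ e ≤ 2 ^ (k + 1) := by
      have h1 : (j + 1) * 2 ^ e ≤ 2 ^ (k - e) * 2 ^ e := Nat.mul_le_mul_right _ hj
      rw [← pow_add, Nat.sub_add_cancel he3] at h1
      rw [pow_succ]
      nlinarith
    have h1 : ((2 ^ k + j * 2 ^ e + 2 ^ e : ℕ) : ℝ) ≤ ((2 ^ (k + 1) : ℕ) : ℝ) := by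
      exact_mod_cast hyH
    push_cast at h1
    have h2 : (0 : ℝ) < 2 ^ e := by positivity
    have h3 : (0 : ℝ) ≤ (j : ℝ) * 2 ^ e := by positivity
    have h4 : (1 : ℝ) ≤ 2 ^ k := one_le_pow₀ (by norm_num)
    unfold uu
    push_cast
    rw [← he]
    rw [pow_succ] at h1
    constructor
    · rw [Real.exp_log (by positivity), hX]
      linarith
    · apply Real.log_nonneg
      linarith
  -- one zero
  have hone : ∀ ρ ∈ M.filter (fun ρ => (2 : ℝ) ^ ((1/2 + d + η) * k) < |ρ.im|),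
      ‖Complex.exp (ρ * uu d k j) * KK lam ρ ^ p‖ ≤ 2 * X * (B * (2 : ℝ) ^ (-(16 * k : ℝ))) := by
    intro ρ hρ
    rw [Multiset.mem_filter] at hρ
    obtain ⟨hρM, him⟩ := hρ
    obtain ⟨_, h1, h2, _⟩ := hM.mem ρ hρM
    rw [norm_mul, norm_pow]
    have e1 : ‖Complex.exp (ρ * uu d k j)‖ ≤ 2 * X := by
      rw [Complex.norm_exp]
      have : (ρ * (uu d k j : ℂ)).re = ρ.re * uu d k j := by simp
      rw [this]
      refine le_trans (Real.exp_le_exp.mpr ?_) huexp.1
      nlinarith [huexp.2]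
    have e2 : ‖KK lam ρ‖ ≤ |C1| * (16 * p) ^ 2 * (2 : ℝ) ^ (-(2 * η * k)) := by
      have g1 := hC1 lam hlam0 hlam1 ρ (by linarith) (by linarith)
      have g2 : (2 : ℝ) ^ (η * k) / (16 * p) ≤ lam * |ρ.im| := by
        have f1 : (2 : ℝ) ^ ((1 / 2 - d) * k - 1) ≤ (2 : ℝ) ^ e := by
          rw [← Real.rpow_natCast 2 e]
          apply Real.rpow_le_rpow_of_exponent_le (by norm_num)
          have := Nat.lt_floor_add_one ((k : ℝ) * (1 / 2 - d))
          rw [he]
          unfold ee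
          linarith
        have f2 : (2 : ℝ) ^ (η * k) / (16 * p) =
            (2 : ℝ) ^ ((1 / 2 - d) * k - 1) / (8 * p * X) * (2 : ℝ) ^ ((1/2 + d + η) * k) := by
          rw [hX, ← Real.rpow_natCast 2 k]
          have g3 : (2 : ℝ) ^ ((1 / 2 - d) * k - 1) * (2 : ℝ) ^ ((1/2 + d + η) * k) =
              (2 : ℝ) ^ (η * k) * (2 : ℝ) ^ (k : ℝ) / 2 := by
            rw [← Real.rpow_add (by norm_num), ← Real.rpow_add (by norm_num)]
            have : (2 : ℝ) ^ (η * k + k) / 2 = (2 : ℝ) ^ (η * k + k - 1) := by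
              rw [Real.rpow_sub_one (by norm_num)]
            rw [this]
            congr 1
            ring
          have g4 : (0 : ℝ) < (2 : ℝ) ^ (k : ℝ) := by positivity
          rw [div_mul_eq_mul_div, g3]
          field_simp
          ring
        rw [f2, hlamdef]
        gcongr
      have g3 : 0 < (2 : ℝ) ^ (η * k) / (16 * p) := by positivity
      have g4 : ((2 : ℝ) ^ (η * k) / (16 * p)) ^ 2 ≤ 1 + (lam * ρ.im) ^ 2 := by
        have : (lam * ρ.im) ^ 2 = (lam * |ρ.im|) ^ 2 := by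
          rw [mul_pow, mul_pow, sq_abs]
        rw [this]
        have := pow_le_pow_left₀ g3.le g2 2
        linarith
      calc ‖KK lam ρ‖ ≤ C1 / (1 + (lam * ρ.im) ^ 2) := g1
        _ ≤ |C1| / (1 + (lam * ρ.im) ^ 2) := by
            apply div_le_div_of_nonneg_right (le_abs_self _)
            positivity
        _ ≤ |C1| / ((2 : ℝ) ^ (η * k) / (16 * p)) ^ 2 := by
            apply div_le_div_of_nonneg_left (abs_nonneg _) (by positivity) g4
        _ = _ := by
            have g5 : (2 : ℝ) ^ (-(2 * η * k)) = (((2 : ℝ) ^ (η * k)) ^ 2)⁻¹ := by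
              rw [← Real.rpow_natCast, ← Real.rpow_mul (by norm_num),
                ← Real.rpow_neg (by norm_num)]
              congr 1
              push_cast
              ring
            rw [g5, div_pow, div_div_eq_mul_div]
            field_simp
    have e3 : ‖KK lam ρ‖ ^ p ≤ B * (2 : ℝ) ^ (-(16 * k : ℝ)) := by
      calc ‖KK lam ρ‖ ^ p ≤ (|C1| * (16 * p) ^ 2 * (2 : ℝ) ^ (-(2 * η * k))) ^ p :=
            pow_le_pow_left₀ (norm_nonneg _) e2 p
        _ = B * ((2 : ℝ) ^ (-(2 * η * k))) ^ p := by rw [mul_pow]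
        _ ≤ B * (2 : ℝ) ^ (-(16 * k : ℝ)) := by
            apply mul_le_mul_of_nonneg_left _ hB0
            rw [← Real.rpow_natCast, ← Real.rpow_mul (by norm_num)]
            apply Real.rpow_le_rpow_of_exponent_le (by norm_num)
            have : (16 : ℝ) * k ≤ 2 * (p * η) * k := by nlinarith
            nlinarith
    exact mul_le_mul e1 e3 (by positivity) (by positivity)
  refine (multiset_sum_le' _ _ _ hone).trans ?_
  have hc : (Multiset.card (M.filter (fun ρ => (2 : ℝ) ^ ((1/2 + d + η) * k) < |ρ.im|)) : ℝ) ≤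
      C2 * 2 ^ (5 * k) * (5 * k + 2) := by
    have g1 := hcard (2 ^ (5 * k)) M Z (one_le_pow₀ (by norm_num)) hM
    have g2 : (Multiset.card (M.filter (fun ρ => (2 : ℝ) ^ ((1/2 + d + η) * k) < |ρ.im|)) : ℝ) ≤
        (Multiset.card M : ℝ) := by
      exact_mod_cast Multiset.card_le_card (Multiset.filter_le _ _)
    refine g2.trans (g1.trans ?_)
    apply mul_le_mul_of_nonneg_left _ (by positivity)
    have g3 : (2 : ℝ) ^ (5 * k) + 2 ≤ (2 : ℝ) ^ (5 * k + 1) := by
      have : (2 : ℝ) ≤ 2 ^ (5 * k) := by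
        calc (2 : ℝ) = 2 ^ 1 := by norm_num
          _ ≤ 2 ^ (5 * k) := pow_le_pow_right₀ (by norm_num) (by omega)
      rw [pow_succ]; linarith
    calc Real.log ((2 : ℝ) ^ (5 * k) + 2) ≤ Real.log ((2 : ℝ) ^ (5 * k + 1)) :=
          Real.log_le_log (by positivity) g3
      _ = ((5 * k + 1 : ℕ) : ℝ) * Real.log 2 := Real.log_pow _ _
      _ ≤ ((5 * k + 1 : ℕ) : ℝ) * 1 := by
          apply mul_le_mul_of_nonneg_left _ (by positivity)
          have := Real.log_two_lt_d9
          linarith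
      _ ≤ 5 * k + 2 := by push_cast; linarith
  have hX16 : (2 : ℝ) ^ (-(16 * k : ℝ)) = (1 / 2 : ℝ) ^ (16 * k) := by
    rw [Real.rpow_neg (by norm_num), one_div, inv_pow]
    congr 1
    rw [← Real.rpow_natCast]
    congr 1
    push_cast
    ring
  calc (Multiset.card (M.filter (fun ρ => (2 : ℝ) ^ ((1/2 + d + η) * k) < |ρ.im|)) : ℝ) *
        (2 * X * (B * (2 : ℝ) ^ (-(16 * k : ℝ)))) ≤
        (C2 * 2 ^ (5 * k) * (5 * k + 2)) * (2 * X * (B * (2 : ℝ) ^ (-(16 * k : ℝ)))) := by
        apply mul_le_mul_of_nonneg_right hc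
        positivity
    _ = 2 * (C2 * B) * ((5 * k + 2) * ((2 : ℝ) ^ (5 * k) * 2 ^ k * (1 / 2 : ℝ) ^ (16 * k))) := by
        rw [hX16, hX]; ring
    _ ≤ 2 * (C2 * B) * ((5 * k + 2) * (1 / 2 : ℝ) ^ k) := by
        apply mul_le_mul_of_nonneg_left _ (by positivity)
        apply mul_le_mul_of_nonneg_left _ (by positivity)
        have f1 : (2 : ℝ) ^ (5 * k) * 2 ^ k * (1 / 2 : ℝ) ^ (16 * k) = (1 / 2 : ℝ) ^ (10 * k) := by
          have : 16 * k = 6 * k + 10 * k := by ring
          rw [this, pow_add, ← mul_assoc, ← pow_add]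
          have h7 : 5 * k + k = 6 * k := by ring
          rw [h7, ← mul_pow]
          norm_num
        rw [f1]
        apply pow_le_pow_of_le_one (by norm_num) (by norm_num)
        omega
    _ ≤ 1 := hKK k hkK

end Pool.Agent.Helper1.KL
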