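import Pool.Agent.Helper1.KL.KFin
import Pool.Agent.Helper26.KL.Pos
import Pool.Agent.Helper33.KL.ModS
import Pool.Agent.Helper7.KL.Hom
import Pool.Agent.Helper67.KL.Mod0
import Pool.Agent.Helper84.KL.VMain
import Pool.Agent.Helper17.KL.ModA
import Pool.Agent.Helper19.KL.ScMain
import Pool.Agent.Helper19.KL.Lift
import Pool.Agent.Helper79.KL.LabelMain
import Pool.Agent.Helper96.KL.Dim
import Pool.Agent.Helper39.KL.LinStep
import Pool.Agent.Helper66.KL.E
import Pool.Agent.Helper31.KL.Comb
import Pool.Agent.Helper36.KL.Dec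
import Pool.Agent.Helper16.KL.Main
import Pool.Agent.Helper41.KL.EF
import Pool.Agent.Helper26.KL.Ext

set_option autoImplicit false

/-!
Project KL (MP_0b9e0b_ag): the main theorem.
-/

namespace Pool.Agent.Helper1.KL

theorem kl_main (k : Type) [Field k] (p : ℕ) [Fact p.Prime] [CharP k p] (n : ℕ)
    (b : Fin n → k) (hb : ∀ i, b i ≠ 0) (r : ℕ) : Main k p n b r := by
  have hPos : ModPos k p b r := Helper26.KL.modPos k p b r
  have hS : ModS k p b r := Helper33.KL.modS k p b r hb
  have hLift : ModLift k p b := Helper19.KL.modLift k p b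
  have hHom : ModHom k p b r := Helper7.KL.modHom k p b r hb hPos hS hLift
  have h0 : Mod0 k p b r := Helper67.KL.mod0 hHom hb
  have h0' : Mod0' k p b r := Helper67.KL.mod0' hS hb
  have hV : ModV k p b r := Helper84.KL.modV hb hHom
  have hA1 : ModA1 k p b r := Helper17.KL.modA1 k p b r hb
  have hA2 : ModA2 k p b r := Helper17.KL.modA2 k p b r hb
  have hSc : ModSc k p b r := Helper19.KL.modSc hb hHom
  have hLab : ModLabel k p b r := Helper79.KL.modLabel p b r hb hPos
  have hDim : ModDim k p b r := modDim hb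
  have hE : ModE k p b r := Helper66.KL.modE hb
  have hComb : ModComb k p b r := Helper31.KL.modComb hV hA1 hA2 hSc hS hE
  have hDec : ModDec k p b r := Helper36.KL.modDec hLab
  have hPsi : ∀ τ, ModPsi k p b r τ := fun τ =>
    Helper16.KLP.modPsi_of hb τ hS Helper41.KL.stEF (Helper26.KL.stExt hLift τ)
  exact main_of hDec hComb hDim h0 h0' hPsi Helper39.KL.linStep

end Pool.Agent.Helper1.KL
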