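import Pool.Agent.Helper1.KL.KMain
import Pool.Agent.Helper79.KL.Smooth

set_option autoImplicit false

namespace Pool.Agent.Helper1.KL.Res

open Pool.Agent.Helper1.KL Pool.Agent.Helper79.KL

/-- Let `k` be a field of characteristic `p`, `b i` nonzero elements of `k`, `K = k(t)`, `C i` the
closure in `P^1 × P^1` over `K` of the curve `y ^ p - y = t x + b i / x`, and `X` the product of
the `n` curves `C i`. The curves `C i` are smooth, and for every `r` the dimension of the Chow
group of cycles of dimension `r` on `X` with rational coefficients is at most `C(n, r)` plus the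
sum of the dimensions of the groups `CHY b τ r` over the `τ = (I, ρ)`, `I` a set of indices, `ρ` a
function on `I` with values in `F_p` which is not zero: `CHY b τ r` is the Chow group of cycles of
dimension `r` on the variety `Y` over `k` of the points `x` with nonzero coordinates `x i`,
`i ∈ I`, such that `∑ ρ_i x_i = 0` and `∑ ρ_i b_i / x_i = 0`, modulo the divisors of the function
`∑ ρ_i b_i / x_i` on the subvarieties of the hyperplane `∑ ρ_i x_i = 0`. -/
theorem result (k : Type) [Field k] (p : ℕ) [Fact p.Prime] [CharP k p] (n : ℕ)
    (b : Fin n → k) (hb : ∀ i, b i ≠ 0) :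
    (∀ i, SmoothCurve p (RatFunc.X : RatFunc k) (RatFunc.C (b i))) ∧ ∀ r, Main k p n b r :=
  ⟨fun i => smoothCurve_ratFunc p (hb i), fun r => kl_main k p n b hb r⟩

end Pool.Agent.Helper1.KL.Res
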