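import Pool.Agent.Helper60.KC.FinalG
import Pool.Agent.Helper60.KS.StE2

/-! Project KS: a lower bound for the sum of `1/m` over the primes `m ∈ (M, 2M]`, `M = 2^(em k)`, from `count_000`. -/

set_option autoImplicit false
open Filter Topology Finset
open scoped Classical

namespace Pool.Agent.Helper1.KL

open Pool.Agent.Helper60.KS

/-- at least `c 2^n / n` primes in `[2^n, 2^(n+1))` -/
theorem primes_block : ∃ c : ℝ, 0 < c ∧ ∃ K : ℕ, ∀ n : ℕ, K ≤ n →
    c * 2 ^ n / n ≤ (((Finset.Ico (2 ^ n) (2 ^ (n + 1))).filter Nat.Prime).card : ℝ) := by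
  obtain ⟨d0, hd0, H⟩ := Helper60.KC.count_000
  set d : ℝ := min d0 (1 / 4) with hd
  have hdpos : 0 < d := lt_min hd0 (by norm_num)
  obtain ⟨c0, hc0, K, hK⟩ := H d hdpos (min_le_left _ _)
  refine ⟨c0 / 2, by positivity, max K 10, fun n hn => ?_⟩
  have hnK : K ≤ n := (le_max_left _ _).trans hn
  have hn10 : 10 ≤ n := (le_max_right _ _).trans hn
  have hn10' : (10 : ℝ) ≤ n := by exact_mod_cast hn10
  have hbad := hK n hnK
  set e : ℕ := ecw 0 d n with he
  have hed : (e : ℝ) ≤ n / 2 := by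
    have h1 : (e : ℝ) ≤ (n : ℝ) * (1/2 + 0 - d) := by
      rw [he]
      unfold ecw
      apply Nat.floor_le
      have : d ≤ 1 / 4 := min_le_right _ _
      apply mul_nonneg (by linarith) (by linarith)
    nlinarith
  have hen : e ≤ n := by
    have : (e : ℝ) ≤ n := by linarith
    exact_mod_cast this
  set B := (Finset.range (2 ^ (n - e))).filter (fun j => (npr n e j : ℝ) < c0 * 2 ^ e / n) with hB
  set G := (Finset.range (2 ^ (n - e))).filter (fun j => ¬ (npr n e j : ℝ) < c0 * 2 ^ e / n) with hG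
  have hcard : B.card + G.card = 2 ^ (n - e) := by
    rw [hB, hG, Finset.card_filter_add_card_filter_not, Finset.card_range]
  have hB2 : (B.card : ℝ) ≤ 2 ^ (n - e) / 2 := by
    refine hbad.trans ?_
    have h1 : (2 : ℝ) ^ (n - e) = (2 : ℝ) ^ ((n : ℝ) - e) := by
      rw [← Nat.cast_sub hen, Real.rpow_natCast]
    rw [h1, ← Real.rpow_sub_one (by norm_num)]
    apply Real.rpow_le_rpow_of_exponent_le (by norm_num)
    linarith
  have hG2 : (2 : ℝ) ^ (n - e) / 2 ≤ G.card := by
    have h1 : (B.card : ℝ) + G.card = 2 ^ (n - e) := by exact_mod_cast hcard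
    linarith
  -- the primes
  have hsum : ∑ j ∈ G, npr n e j ≤ ((Finset.Ico (2 ^ n) (2 ^ (n + 1))).filter Nat.Prime).card := by
    have h1 : ∀ j, npr n e j = ((Finset.Ico (2 ^ n + j * 2 ^ e) (2 ^ n + (j + 1) * 2 ^ e)).filter
        Nat.Prime).card := fun j => rfl
    rw [Finset.sum_congr rfl (fun j _ => h1 j), ← Finset.card_biUnion]
    · apply Finset.card_le_card
      intro p hp
      rw [Finset.mem_biUnion] at hp
      obtain ⟨j, hj, hp⟩ := hp
      rw [Finset.mem_filter, Finset.mem_Ico] at hp ⊢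
      rw [hG, Finset.mem_filter, Finset.mem_range] at hj
      refine ⟨⟨by omega, lt_of_lt_of_le hp.1.2 ?_⟩, hp.2⟩
      have h2 : (j + 1) * 2 ^ e ≤ 2 ^ (n - e) * 2 ^ e := Nat.mul_le_mul_right _ hj.1
      rw [← pow_add, Nat.sub_add_cancel hen] at h2
      rw [pow_succ]
      omega
    · intro i _ j _ hij
      rw [Function.onFun, Finset.disjoint_left]
      intro p hp hp'
      rw [Finset.mem_filter, Finset.mem_Ico] at hp hp'
      rcases lt_or_gt_of_ne hij with h | h
      · have h2 : (i + 1) * 2 ^ e ≤ j * 2 ^ e := Nat.mul_le_mul_right _ h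
        omega
      · have h2 : (j + 1) * 2 ^ e ≤ i * 2 ^ e := Nat.mul_le_mul_right _ h
        omega
  have hsum' : (G.card : ℝ) * (c0 * 2 ^ e / n) ≤
      (((Finset.Ico (2 ^ n) (2 ^ (n + 1))).filter Nat.Prime).card : ℝ) := by
    refine le_trans ?_ (by exact_mod_cast hsum : ((∑ j ∈ G, npr n e j : ℕ) : ℝ) ≤ _)
    rw [Nat.cast_sum, ← nsmul_eq_mul]
    apply Finset.card_nsmul_le_sum
    intro j hj
    rw [hG, Finset.mem_filter] at hj
    exact not_lt.1 hj.2
  refine le_trans (le_of_eq ?_) ((mul_le_mul_of_nonneg_right hG2 (by positivity)).trans hsum')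
  have h3 : (2 : ℝ) ^ n = 2 ^ (n - e) * 2 ^ e := by rw [← pow_add, Nat.sub_add_cancel hen]
  rw [h3]
  ring

theorem s1Lower : S1Lower := by
  obtain ⟨c, hc, K, hK⟩ := primes_block
  refine ⟨c / 2, by positivity, 3 * K + 10, fun k hk => ?_⟩
  have hkpos : (0 : ℝ) < k := by
    have : 0 < k := by omega
    exact_mod_cast this
  set n : ℕ := Helper60.KS.em k with hn
  have hnK : K ≤ n := by rw [hn]; unfold Helper60.KS.em; omega
  have hn2 : 2 ≤ n := by rw [hn]; unfold Helper60.KS.em; omega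
  have hnk : n ≤ k := by rw [hn]; unfold Helper60.KS.em; omega
  have hnpos : (0 : ℝ) < n := by
    have : 0 < n := by omega
    exact_mod_cast this
  have h1 := hK n hnK
  have hsub : (Finset.Ico (2 ^ n) (2 ^ (n + 1))).filter Nat.Prime ⊆ PM k := by
    intro p hp
    rw [Finset.mem_filter, Finset.mem_Ico] at hp
    unfold PM
    rw [Finset.mem_filter, Finset.mem_Ioc, ← hn]
    refine ⟨⟨lt_of_le_of_ne hp.1.1 ?_, ?_⟩, hp.2⟩
    · intro h
      rw [← h] at hp
      exact Nat.Prime.not_prime_pow hn2 hp.2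
    · have := hp.1.2
      rw [pow_succ] at this
      omega
  have h2 : ((((Finset.Ico (2 ^ n) (2 ^ (n + 1))).filter Nat.Prime).card : ℕ) : ℝ) *
      (1 / 2 ^ (n + 1)) ≤ S1 k := by
    unfold S1
    refine le_trans ?_ (Finset.sum_le_sum_of_subset_of_nonneg hsub (fun i _ _ => by positivity))
    rw [← nsmul_eq_mul]
    apply Finset.card_nsmul_le_sum
    intro p hp
    rw [Finset.mem_filter, Finset.mem_Ico] at hp
    have h3 : (p : ℝ) ≤ 2 ^ (n + 1) := by
      have : p ≤ 2 ^ (n + 1) := hp.1.2.le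
      exact_mod_cast this
    have h4 : (0 : ℝ) < p := by exact_mod_cast hp.2.pos
    exact one_div_le_one_div_of_le h4 h3
  refine le_trans ?_ h2
  refine le_trans ?_ (mul_le_mul_of_nonneg_right h1 (by positivity))
  have h5 : c * 2 ^ n / n * (1 / 2 ^ (n + 1)) = c / 2 / n := by
    rw [pow_succ]
    field_simp
  rw [h5]
  have h6 : (n : ℝ) ≤ k := by exact_mod_cast hnk
  exact div_le_div_of_nonneg_left (by positivity) hnpos h6

end Pool.Agent.Helper1.KL
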