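import Pool.Agent.Helper46.KSZ.St

/-!
# The explicit formula with the line `0.575` (project KS, design D4): definitions and statements

Copy of `Pool/Agent/Helper46/KSZ/St.lean` (helper46) with the box `57/100 < Re s` and the line `Re s = 0.575`, and with
general cell lengths as in `Pool/Agent/Helper60/KG` (helper60).  This is needed for windows of length `y ^ 0.172`.
-/

set_option autoImplicit false
open Filter Topology MeasureTheory Complex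
open scoped Classical

namespace Pool.Agent.Helper1.KL

export Pool.Agent.Helper46.KSZ (JensenEZ lhs ker KerFacts ee cell uu Few lamk)

open Pool.Agent.Helper10.QRH Pool.Agent.Helper69.QRH

/-- `M` is the multiset of all zeros of zeta (with multiplicity) in the box
`57/100 < Re s, |Im s| < T + 2`, and `Z = (s-1) ζ(s) / ∏ (s - ρ)`. -/
structure Box (T : ℝ) (M : Multiset ℂ) (Z : ℂ → ℂ) : Prop where
  diff : Differentiable ℂ Z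
  eq : ∀ z, EZ z = Qp M z * Z z
  mem : ∀ ρ ∈ M, riemannZeta ρ = 0 ∧ 57/100 < ρ.re ∧ ρ.re < 1 ∧ |ρ.im| < T + 2
  ne : ∀ z : ℂ, 57/100 < z.re → |z.im| < T + 2 → Z z ≠ 0
  count : ∀ ρ : ℂ, riemannZeta ρ = 0 → 57/100 < ρ.re → |ρ.im| < T + 2 →
    M.count ρ = analyticOrderNatAt riemannZeta ρ

/-- E1 -/
def BoxExists : Prop := ∀ T : ℝ, 0 ≤ T → ∃ (M : Multiset ℂ) (Z : ℂ → ℂ), Box T M Z

/-- the zeros of `M` in the disc of radius `1.43` about `2 + i t` -/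
noncomputable def near (M : Multiset ℂ) (t : ℝ) : Multiset ℂ :=
  M.filter (fun ρ => ‖ρ - (2 + t * Complex.I)‖ < 1.43)

/-- the other zeros -/
noncomputable def far (M : Multiset ℂ) (t : ℝ) : Multiset ℂ :=
  M.filter (fun ρ => ¬ ‖ρ - (2 + t * Complex.I)‖ < 1.43)

/-- E3: the logarithmic derivative of `EZ / ∏_{near}` -/
def LocalLog : Prop := ∃ C : ℝ, 0 < C ∧ ∀ (T : ℝ) (M : Multiset ℂ) (Z : ℂ → ℂ), 1 ≤ T → Box T M Z →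
  ∀ s : ℂ, 0.575 ≤ s.re → s.re ≤ 2 → |s.im| ≤ T →
    Qp (far M s.im) s * Z s ≠ 0 ∧
    ‖logDeriv (fun z => Qp (far M s.im) z * Z z) s‖ ≤ C * Real.log (|s.im| + 2)

/-- E4: sums over the zeros of the box -/
def FarSum : Prop := ∃ C : ℝ, 0 < C ∧ ∀ (T : ℝ) (M : Multiset ℂ) (Z : ℂ → ℂ), 1 ≤ T → Box T M Z →
  ∀ (N : Multiset ℂ), N ≤ M → ∀ s : ℂ, (∀ ρ ∈ N, 0.003 ≤ ‖s - ρ‖) →
    (N.map (fun ρ => 1 / ‖s - ρ‖)).sum ≤ C * (Real.log (T + 2)) ^ 2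

/-- E4': the number of zeros of the box -/
def CardBox : Prop := ∃ C : ℝ, 0 < C ∧ ∀ (T : ℝ) (M : Multiset ℂ) (Z : ℂ → ℂ), 1 ≤ T → Box T M Z →
  (Multiset.card M : ℝ) ≤ C * T * Real.log (T + 2)

/-- E5: bounds for `Z'/Z` -/
def GBound : Prop := ∃ C : ℝ, 0 < C ∧ ∀ (T : ℝ) (M : Multiset ℂ) (Z : ℂ → ℂ), 1 ≤ T → Box T M Z →
  (∀ s : ℂ, 0.575 ≤ s.re → s.re ≤ 2 → |s.im| ≤ T → ‖logDeriv Z s‖ ≤ C * (Real.log (T + 2)) ^ 2) ∧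
  (∀ t : ℝ, ‖logDeriv Z (2 + t * Complex.I)‖ ≤ C * (Real.log (T + 2)) ^ 2)

/-- the line integral -/
noncomputable def line (p : ℕ) (lam T : ℝ) (Z : ℂ → ℂ) (u : ℝ) : ℂ :=
  (1 / (2 * Real.pi)) * ∫ t in (-T)..T, KK lam ((0.575 : ℝ) + t * Complex.I) ^ p *
    (-logDeriv Z ((0.575 : ℝ) + t * Complex.I)) * Complex.exp (((0.575 : ℝ) + t * Complex.I) * u)

/-- E6: exact identity on `Re s = 2` -/
def LineTwo : Prop := ∀ (T : ℝ) (M : Multiset ℂ) (Z : ℂ → ℂ), 1 ≤ T → Box T M Z →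
  ∀ lam u : ℝ, 0 < lam → lam ≤ 1 → 1 ≤ u →
    Integrable (fun t : ℝ => KK lam ((2 : ℝ) + t * Complex.I) *
      (-logDeriv Z ((2 : ℝ) + t * Complex.I)) * Complex.exp (((2 : ℝ) + t * Complex.I) * u)) ∧
    lhs (tri lam) 1 lam M u = (1 / (2 * Real.pi)) * ∫ t : ℝ, KK lam ((2 : ℝ) + t * Complex.I) *
      (-logDeriv Z ((2 : ℝ) + t * Complex.I)) * Complex.exp (((2 : ℝ) + t * Complex.I) * u)

/-- E7: shift to the line `0.575` -/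
def Shift : Prop := ∃ C : ℝ, 0 < C ∧ ∀ (T : ℝ) (M : Multiset ℂ) (Z : ℂ → ℂ), 1 ≤ T → Box T M Z →
  ∀ lam u : ℝ, 0 < lam → lam ≤ 1 → 1 ≤ u →
    ‖lhs (tri lam) 1 lam M u - line 1 lam T Z u‖ ≤
      C * Real.exp (2 * u) * (Real.log (T + 2)) ^ 2 / (lam ^ 2 * T)

/-- E9: the explicit formula with the iterated kernel -/
def ShiftIter : Prop := ∃ C : ℝ, 0 < C ∧ ∀ (T : ℝ) (M : Multiset ℂ) (Z : ℂ → ℂ), 1 ≤ T → Box T M Z →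
  ∀ lam u : ℝ, ∀ j : ℕ, 0 < lam → lam ≤ 1 → 1 + j * lam ≤ u →
    ‖lhs (ker lam j) (j + 1) lam M u - line (j + 1) lam T Z u‖ ≤
      C * Real.exp (2 * (u + j * lam)) * (Real.log (T + 2)) ^ 2 / (lam ^ 2 * T)

/-- E10: a cell with few primes makes the prime side small -/
def PrimeSideG : Prop := ∀ (p : ℕ) (d : ℝ), 1 ≤ p → -(1 / 2) ≤ d → d ≤ 34/100 → ∃ K : ℕ, ∀ k : ℕ, K ≤ k →
  ∀ j < 2 ^ (k - ee d k), Few (1 / (200 * p)) d k j →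
    (∑' n : ℕ, ArithmeticFunction.vonMangoldt n * ker (lamk p d k) (p - 1) (uu d k j - Real.log n)) ≤
      1/8 * (2 : ℝ) ^ k

/-- E11: the line integral is small outside of few cells (`T = 2^(5k)`) -/
def LineFewG : Prop := ∀ (p : ℕ) (d η : ℝ), 1 ≤ p → -(1 / 2) ≤ d → d ≤ 34/100 → 0 < η → ∃ K : ℕ, ∀ k : ℕ, K ≤ k →
  ∀ (M : Multiset ℂ) (Z : ℂ → ℂ), Box (2 ^ (5 * k)) M Z →
    (((Finset.range (2 ^ (k - ee d k))).filter (fun j =>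
      1/100 * (2 : ℝ) ^ k ≤ ‖line p (lamk p d k) (2 ^ (5 * k)) Z (uu d k j)‖)).card : ℝ) ≤
      (2 : ℝ) ^ ((0.15 + 2 * d + 3 * η) * k)

/-- E12: high zeros are negligible -/
def HighZerosG : Prop := ∀ d η : ℝ, -(1 / 2) ≤ d → d ≤ 34/100 → 0 < η → ∃ p : ℕ, 1 ≤ p ∧ ∃ K : ℕ, ∀ k : ℕ, K ≤ k →
  ∀ (M : Multiset ℂ) (Z : ℂ → ℂ), Box (2 ^ (5 * k)) M Z → ∀ j < 2 ^ (k - ee d k),
    ((M.filter (fun ρ => (2 : ℝ) ^ ((1/2 + d + η) * k) < |ρ.im|)).map (fun ρ =>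
      ‖Complex.exp (ρ * uu d k j) * KK (lamk p d k) ρ ^ p‖)).sum ≤ 1

/-- the zeros with `57/100 < Re ρ` and `|Im ρ| ≤ 2^(s k)` -/
def zeroSetG (s : ℝ) (k : ℕ) : Set ℂ :=
  {ρ : ℂ | riemannZeta ρ = 0 ∧ 57/100 < ρ.re ∧ |ρ.im| ≤ (2 : ℝ) ^ (s * k)}

/-- explicit formula for cells of length `2^⌊k (1/2 - d)⌋`, `-1/2 ≤ d ≤ 34/100`, with room `η` -/
def ExplicitCellsG : Prop := ∀ d η : ℝ, -(1 / 2) ≤ d → d ≤ 34/100 → 0 < η → η ≤ 1 →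
  ∃ c₀ : ℝ, 0 < c₀ ∧ ∃ K : ℕ, ∀ k : ℕ, K ≤ k →
  ∃ (c : ℂ → ℂ) (Ex : Finset ℕ), (∀ ρ : ℂ, 0 ≤ ρ.re → ρ.re ≤ 1 → ‖c ρ‖ ≤ 2) ∧
    (Ex.card : ℝ) ≤ (2 : ℝ) ^ ((0.15 + 2 * d + 3 * η) * k) ∧
    ∀ j < 2 ^ (k - ee d k), j ∉ Ex → Few c₀ d k j →
      ∀ S : Finset ℂ, (∀ ρ, ρ ∈ S ↔ ρ ∈ zeroSetG (1/2 + d + η) k) →
      3/4 ≤ ‖∑ ρ ∈ S, (analyticOrderNatAt riemannZeta ρ : ℂ) * c ρ *
        Complex.exp ((ρ - 1) * uu d k j)‖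

end Pool.Agent.Helper1.KL
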