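import Pool.Agent.Helper1.KL.NTheta
import Pool.Agent.Helper60.KS.StE2

/-! `ThmNk κ0` for all `κ0 > 1/2` (helper60's statement) -/

set_option autoImplicit false

namespace Pool.Agent.Helper1.KL

theorem thmNk {κ0 : ℝ} (hκ : 1 / 2 < κ0) : Helper60.KS.ThmNk κ0 := by
  obtain ⟨ε, hε, H⟩ := theoremNTheta hκ
  obtain ⟨X0, hX0⟩ := H (1 / 16) (by norm_num)
  refine ⟨min ε (1 / 100), X0, lt_min hε (by norm_num), min_le_right _ _, fun X hX F hF => ?_⟩
  have h := hX0 X hX F (fun ρ hρ => by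
    obtain ⟨h1, h2, h3⟩ := hF ρ hρ
    refine ⟨h1, ?_, ?_⟩
    · have := min_le_left ε (1 / 100)
      linarith
    · have e : (6 / 10 : ℝ) = 0.6 := by norm_num
      rw [e]
      exact h3)
  refine le_trans (le_of_eq ?_) h
  refine Finset.sum_congr rfl fun ρ _ => ?_
  rfl

end Pool.Agent.Helper1.KL
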